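import Pool.Agent.Helper448.Warren

set_option autoImplicit false
set_option linter.unusedSectionVars false

/-!
# Components of projections of real algebraic sets defined by quadrics

If all real solutions `(x, y)` of a system of polynomial equations of degree at most two satisfy
`L i x ≠ 0` for finitely many continuous functions `L i`, then the points `x` of the projection
realise at most `5 ^ (number of variables)` sign vectors of the functions `L i`.
-/

namespace Pool.Agent.H546R2.BS

open MvPolynomial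

variable {σ τ : Type*} [Fintype σ] [DecidableEq σ] [Fintype τ] [DecidableEq τ]

/-- the sum of the squares of the polynomials of a list -/
noncomputable def sumSq {ι : Type*} (H : List (MvPolynomial ι ℝ)) : MvPolynomial ι ℝ :=
  (H.map (fun h => h ^ 2)).sum

lemma eval_sumSq {ι : Type*} (H : List (MvPolynomial ι ℝ)) (z : ι → ℝ) :
    eval z (sumSq H) = (H.map (fun h => (eval z h) ^ 2)).sum := by
  unfold sumSq
  induction H with
  | nil => simp
  | cons h H ih =>
    simp only [List.map_cons, List.sum_cons, map_add, map_pow, ih]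

lemma eval_sumSq_nonneg {ι : Type*} (H : List (MvPolynomial ι ℝ)) (z : ι → ℝ) :
    0 ≤ eval z (sumSq H) := by
  rw [eval_sumSq]
  apply List.sum_nonneg
  intro a ha
  obtain ⟨h, _, rfl⟩ := List.mem_map.mp ha
  exact sq_nonneg _

lemma eval_sumSq_eq_zero {ι : Type*} (H : List (MvPolynomial ι ℝ)) (z : ι → ℝ)
    (h0 : eval z (sumSq H) = 0) : ∀ h ∈ H, eval z h = 0 := by
  induction H with
  | nil => intro h hh; simp at hh
  | cons g H ih =>
    have h1 : eval z (sumSq (g :: H)) = (eval z g) ^ 2 + eval z (sumSq H) := by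
      rw [eval_sumSq, eval_sumSq, List.map_cons, List.sum_cons]
    rw [h1] at h0
    have h2 := eval_sumSq_nonneg H z
    have h3 := sq_nonneg (eval z g)
    have h4 : (eval z g) ^ 2 = 0 := by linarith
    have h5 : eval z (sumSq H) = 0 := by linarith
    intro h hh
    rcases List.mem_cons.mp hh with rfl | hh
    · exact pow_eq_zero_iff (by norm_num) |>.mp h4
    · exact ih h5 h hh

lemma totalDegree_sumSq {ι : Type*} (H : List (MvPolynomial ι ℝ))
    (hd : ∀ h ∈ H, h.totalDegree ≤ 2) : (sumSq H).totalDegree ≤ 4 := by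
  induction H with
  | nil => simp [sumSq]
  | cons g H ih =>
    have h1 : sumSq (g :: H) = g ^ 2 + sumSq H := by
      unfold sumSq
      rw [List.map_cons, List.sum_cons]
    rw [h1]
    refine (totalDegree_add _ _).trans (max_le ?_ (ih fun h hh => hd h (List.mem_cons_of_mem _ hh)))
    refine (totalDegree_pow _ _).trans ?_
    have := hd g List.mem_cons_self
    omega

/-- the main lemma -/
theorem card_points_le {Y : Type*} [Finite Y] (H : List (MvPolynomial (σ ⊕ τ) ℝ))
    (hd : ∀ h ∈ H, h.totalDegree ≤ 2) (L : Y → (σ → ℝ) → ℝ) (hL : ∀ i, Continuous (L i))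
    (hS : ∀ z : σ ⊕ τ → ℝ, (∀ h ∈ H, eval z h = 0) → ∀ i, L i (z ∘ Sum.inl) ≠ 0)
    (P : Finset (σ → ℝ)) (hP : ∀ p ∈ P, ∃ y : τ → ℝ, ∀ h ∈ H, eval (Sum.elim p y) h = 0)
    (hsep : ∀ p ∈ P, ∀ q ∈ P, p ≠ q → ∃ i, L i p * L i q < 0) :
    P.card ≤ 5 ^ (Fintype.card σ + Fintype.card τ) := by
  classical
  choose! y hy using hP
  obtain ⟨a, ha⟩ : ∃ a : (σ → ℝ) → σ ⊕ τ → ℝ, ∀ p, a p = Sum.elim p (y p) := ⟨_, fun _ => rfl⟩
  have hLp : ∀ p ∈ P, ∀ i, L i p ≠ 0 := by
    intro p hp i
    have := hS (a p) (by rw [ha]; exact hy p hp) i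
    rw [ha] at this
    exact this
  -- the sixth powers
  obtain ⟨N, hN⟩ : ∃ N : (σ ⊕ τ → ℝ) → ℝ, ∀ z, N z = ∑ i, (z i) ^ 6 := ⟨_, fun _ => rfl⟩
  have hNcont : Continuous N := by
    have : N = fun z => ∑ i, (z i) ^ 6 := funext hN
    rw [this]; fun_prop
  have hNnn : ∀ z, 0 ≤ N z := by
    intro z; rw [hN]
    exact Finset.sum_nonneg fun i _ => by positivity
  have hNi : ∀ z i, (z i) ^ 6 ≤ N z := by
    intro z i; rw [hN]
    exact Finset.single_le_sum (f := fun i => (z i) ^ 6) (fun j _ => by positivity)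
      (Finset.mem_univ i)
  obtain ⟨δ, hδ, hδa⟩ : ∃ δ : ℝ, 0 < δ ∧ ∀ p ∈ P, δ * N (a p) < 1 / 2 := by
    refine ⟨1 / (2 * (∑ p ∈ P, N (a p) + 1)), ?_, ?_⟩
    · have : 0 ≤ ∑ p ∈ P, N (a p) := Finset.sum_nonneg fun p _ => hNnn _
      positivity
    · intro p hp
      have h0 : 0 ≤ ∑ p ∈ P, N (a p) := Finset.sum_nonneg fun p _ => hNnn _
      have h1 : N (a p) ≤ ∑ p ∈ P, N (a p) :=
        Finset.single_le_sum (f := fun p => N (a p)) (fun q _ => hNnn _) hp
      rw [div_mul_eq_mul_div, one_mul, div_lt_div_iff₀ (by positivity) (by norm_num)]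
      linarith
  -- the ball
  obtain ⟨B, hB⟩ : ∃ B : Set (σ ⊕ τ → ℝ), B = {z | δ * N z ≤ 1 / 2} := ⟨_, rfl⟩
  have hBclosed : IsClosed B := by
    rw [hB]
    exact isClosed_le (by fun_prop) continuous_const
  have hBcpt : IsCompact B := by
    apply IsCompact.of_isClosed_subset (isCompact_closedBall (0 : σ ⊕ τ → ℝ) (1 / δ + 1)) hBclosed
    intro z hz
    rw [hB, Set.mem_ofPred_eq] at hz
    rw [mem_closedBall_zero_iff, pi_norm_le_iff_of_nonneg (by positivity)]
    intro i
    rw [Real.norm_eq_abs]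
    by_contra hcon
    push Not at hcon
    have h1 : 1 ≤ |z i| := by
      have : 0 < 1 / δ := by positivity
      linarith
    have h2 : |z i| ≤ |z i| ^ 6 := by
      calc |z i| = |z i| ^ 1 := (pow_one _).symm
        _ ≤ |z i| ^ 6 := pow_le_pow_right₀ h1 (by norm_num)
    have h3 : |z i| ^ 6 = (z i) ^ 6 := by
      rw [← abs_pow]
      exact abs_of_nonneg (by positivity)
    have h4 : |z i| ≤ N z := by
      rw [h3] at h2
      exact h2.trans (hNi z i)
    have h5 : 1 / δ < N z := by linarith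
    rw [div_lt_iff₀ hδ] at h5
    linarith
  -- the cells
  obtain ⟨R, hR⟩ : ∃ R : (σ → ℝ) → Set (σ ⊕ τ → ℝ),
      ∀ p, R p = {z | ∀ i, 0 ≤ L i (z ∘ Sum.inl) * L i p} := ⟨_, fun _ => rfl⟩
  have hLz : ∀ i, Continuous fun z : σ ⊕ τ → ℝ => L i (z ∘ Sum.inl) := by
    intro i
    exact (hL i).comp (by fun_prop)
  have hRclosed : ∀ p, IsClosed (R p) := by
    intro p
    have : R p = ⋂ i, {z | 0 ≤ L i (z ∘ Sum.inl) * L i p} := by
      rw [hR]; ext z; simp
    rw [this]
    apply isClosed_iInter
    intro i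
    exact isClosed_le continuous_const ((hLz i).mul continuous_const)
  obtain ⟨E, hE⟩ : ∃ E : Set (σ ⊕ τ → ℝ), E = {z | ∃ i, L i (z ∘ Sum.inl) = 0} := ⟨_, rfl⟩
  have hEclosed : IsClosed E := by
    have : E = ⋃ i, {z | L i (z ∘ Sum.inl) = 0} := by
      rw [hE]; ext z; simp
    rw [this]
    apply isClosed_iUnion_of_finite
    intro i
    exact isClosed_eq (hLz i) continuous_const
  have hq : Continuous fun z => eval z (sumSq H) := MvPolynomial.continuous_eval _
  -- a lower bound on the bad set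
  obtain ⟨Kc, hKc, hKE⟩ : ∃ Kc : ℝ, 0 < Kc ∧ ∀ z ∈ B ∩ E, 1 ≤ Kc * eval z (sumSq H) := by
    have hcpt : IsCompact (B ∩ E) := hBcpt.inter_right hEclosed
    rcases (B ∩ E).eq_empty_or_nonempty with he | hne
    · exact ⟨1, one_pos, by rw [he]; intro z hz; exact absurd hz (Set.notMem_empty z)⟩
    · obtain ⟨z₀, hz₀, hmin⟩ := hcpt.exists_isMinOn hne hq.continuousOn
      have hpos : 0 < eval z₀ (sumSq H) := by
        refine lt_of_le_of_ne (eval_sumSq_nonneg H z₀) ?_
        intro h0
        have h1 := eval_sumSq_eq_zero H z₀ h0.symm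
        have h2 := hz₀.2
        rw [hE] at h2
        obtain ⟨i, hi⟩ := h2
        exact hS z₀ h1 i hi
      refine ⟨1 / eval z₀ (sumSq H), by positivity, ?_⟩
      intro z hz
      have h3 : eval z₀ (sumSq H) ≤ eval z (sumSq H) := hmin hz
      rw [div_mul_eq_mul_div, one_mul, le_div_iff₀ hpos, one_mul]
      exact h3
  -- the function
  obtain ⟨G, hG⟩ : ∃ G : MvPolynomial (σ ⊕ τ) ℝ,
      G = 1 - C Kc * sumSq H - C δ * ∑ i, (X i) ^ 6 := ⟨_, rfl⟩
  have hGe : ∀ z, eval z G = 1 - Kc * eval z (sumSq H) - δ * N z := by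
    intro z
    rw [hG, hN]
    simp
  have hcrit : ∀ p ∈ P, ∃ z : σ ⊕ τ → ℝ, (∀ i, 0 < L i (z ∘ Sum.inl) * L i p) ∧
      ∀ j, eval z (pderiv j G) = 0 := by
    intro p hp
    have hap : a p ∈ B ∩ R p := by
      refine ⟨?_, ?_⟩
      · rw [hB]; exact (hδa p hp).le
      · rw [hR]
        intro i
        have : (a p) ∘ Sum.inl = p := by rw [ha]; funext s; rfl
        rw [this]
        exact mul_self_nonneg _
    have hcpt : IsCompact (B ∩ R p) := hBcpt.inter_right (hRclosed p)
    obtain ⟨z, hz, hmax⟩ := hcpt.exists_isMaxOn ⟨a p, hap⟩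
      (MvPolynomial.continuous_eval G).continuousOn
    have h1 : eval (a p) G ≤ eval z G := hmax hap
    have h2 : eval (a p) (sumSq H) = 0 := by
      rw [eval_sumSq]
      apply List.sum_eq_zero
      intro x hx
      obtain ⟨h, hh, rfl⟩ := List.mem_map.mp hx
      have : eval (a p) h = 0 := by rw [ha]; exact hy p hp h hh
      rw [this]; norm_num
    rw [hGe, hGe, h2, mul_zero, sub_zero] at h1
    have h3 := hδa p hp
    have h4 := eval_sumSq_nonneg H z
    have h5 : 0 ≤ Kc * eval z (sumSq H) := mul_nonneg hKc.le h4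
    have h6 : δ * N z < 1 / 2 := by linarith
    have h7 : 0 ≤ δ * N z := mul_nonneg hδ.le (hNnn z)
    have hzE : z ∉ E := by
      intro hzE
      have := hKE z ⟨hz.1, hzE⟩
      linarith
    have hpos : ∀ i, 0 < L i (z ∘ Sum.inl) * L i p := by
      intro i
      have h8 := hz.2
      rw [hR] at h8
      refine lt_of_le_of_ne (h8 i) ?_
      intro h9
      rcases mul_eq_zero.mp h9.symm with h10 | h10
      · apply hzE
        rw [hE]
        exact ⟨i, h10⟩
      · exact hLp p hp i h10
    refine ⟨z, hpos, ?_⟩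
    apply Pool.Agent.Helper448.Warren.pderiv_eq_zero_of_isLocalMax
    have hnhds : B ∩ R p ∈ nhds z := by
      apply Filter.inter_mem
      · have : {z : σ ⊕ τ → ℝ | δ * N z < 1 / 2} ∈ nhds z :=
          (isOpen_lt (by fun_prop) continuous_const).mem_nhds (by
            rw [Set.mem_ofPred_eq]; exact h6)
        apply Filter.mem_of_superset this
        intro w hw
        rw [Set.mem_ofPred_eq] at hw
        rw [hB, Set.mem_ofPred_eq]
        exact le_of_lt hw
      · have h9 : ∀ i, {w : σ ⊕ τ → ℝ | 0 < L i (w ∘ Sum.inl) * L i p} ∈ nhds z := by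
          intro i
          exact (isOpen_lt continuous_const ((hLz i).mul continuous_const)).mem_nhds (by
            rw [Set.mem_ofPred_eq]; exact hpos i)
        have h10 : (⋂ i, {w : σ ⊕ τ → ℝ | 0 < L i (w ∘ Sum.inl) * L i p}) ∈ nhds z :=
          Filter.iInter_mem.mpr h9
        apply Filter.mem_of_superset h10
        intro w hw
        rw [hR, Set.mem_ofPred_eq]
        intro i
        have h11 := Set.mem_iInter.mp hw i
        rw [Set.mem_ofPred_eq] at h11
        exact h11.le
    exact Filter.mem_of_superset hnhds fun w hw => hmax hw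
  choose! z hz1 hz2 using hcrit
  have hinj : Set.InjOn z P := by
    intro p hp q hq hpq
    by_contra hne
    obtain ⟨i, hi⟩ := hsep p hp q hq hne
    have h1 := hz1 p hp i
    have h2 := hz1 q hq i
    rw [hpq] at h1
    have h3 : 0 < (L i (z q ∘ Sum.inl) * L i p) * (L i (z q ∘ Sum.inl) * L i q) := mul_pos h1 h2
    have h4 : (L i (z q ∘ Sum.inl) * L i p) * (L i (z q ∘ Sum.inl) * L i q) =
        (L i (z q ∘ Sum.inl)) ^ 2 * (L i p * L i q) := by ring
    rw [h4] at h3
    have h5 := mul_nonpos_of_nonneg_of_nonpos (sq_nonneg (L i (z q ∘ Sum.inl))) hi.le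
    linarith
  have hcard : P.card = (P.image z).card := (Finset.card_image_of_injOn hinj).symm
  rw [hcard]
  have h6 := Pool.Agent.Helper448.Warren.card_zeros_le 5 (6 * δ) (by positivity)
    (fun j => C Kc * pderiv j (sumSq H)) (by
      intro j
      refine lt_of_le_of_lt (totalDegree_mul _ _) ?_
      rw [totalDegree_C, zero_add]
      have := Pool.Agent.Helper448.Warren.totalDegree_pderiv_lt (sumSq H) 4 (by norm_num)
        (totalDegree_sumSq H hd) j
      omega) (P.image z) (by
      intro w hw j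
      obtain ⟨p, hp, rfl⟩ := Finset.mem_image.mp hw
      have h7 := hz2 p hp j
      have h8 : pderiv j G = - (C Kc * pderiv j (sumSq H)) - C δ * (6 * (X j) ^ 5) := by
        rw [hG, map_sub, map_sub, pderiv_one, zero_sub, pderiv_C_mul, pderiv_C_mul, map_sum]
        congr 2
        rw [Finset.sum_eq_single j]
        · rw [pderiv_pow, pderiv_X_self]
          norm_num
        · intro i _ hij
          rw [pderiv_pow, pderiv_X_of_ne hij]
          ring
        · intro h; exact absurd (Finset.mem_univ j) h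
      rw [h8] at h7
      simp only [map_sub, map_neg, map_mul, eval_C, map_pow, eval_X, map_ofNat] at h7 ⊢
      linarith)
  rw [Fintype.card_sum] at h6
  exact h6

end Pool.Agent.H546R2.BS
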