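import Pool.Agent.H546R2.BS.B1

set_option autoImplicit false
set_option linter.unusedSectionVars false

/-!
# Computation trees over the complex numbers
-/

namespace Pool.Agent.H546R2.BS

open MvPolynomial

/-- the arithmetic operations -/
inductive Op
  | add
  | sub
  | mul
  | div

/-- the result of an operation -/
noncomputable def Op.eval {K : Type} [Field K] : Op → K → K → K
  | .add, a, b => a + b
  | .sub, a, b => a - b
  | .mul, a, b => a * b
  | .div, a, b => a / b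

/-- Computation trees with constants from `K`.  The values available at a node are numbered: first
come the inputs, then the values computed on the path to the node. -/
inductive Tree (K : Type) : Type
  | leaf (accept : Bool) : Tree K
  | const (c : K) (next : Tree K) : Tree K
  | op (o : Op) (i j : ℕ) (next : Tree K) : Tree K
  | test (i : ℕ) (yes no : Tree K) : Tree K

/-- the depth of a tree -/
def Tree.depth {K : Type} : Tree K → ℕ
  | .leaf _ => 0
  | .const _ T => T.depth + 1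
  | .op _ _ _ T => T.depth + 1
  | .test _ T T' => max T.depth T'.depth + 1

/-- Acceptance with equality tests: `v` is the list of the available values. -/
def Tree.AccEq {K : Type} [Field K] : Tree K → List K → Prop
  | .leaf b, _ => b = true
  | .const c T, v => T.AccEq (v ++ [c])
  | .op o i j T, v => T.AccEq (v ++ [o.eval (v.getD i 0) (v.getD j 0)])
  | .test i T T', v => (v.getD i 0 = 0 ∧ T.AccEq v) ∨ (v.getD i 0 ≠ 0 ∧ T'.AccEq v)

section

variable {σ : Type} [Fintype σ] [DecidableEq σ]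

/-- the complex value of a pair of real polynomials -/
noncomputable def cx {ι : Type} (z : ι → ℝ) (p : MvPolynomial ι ℝ × MvPolynomial ι ℝ) : ℂ :=
  ⟨eval z p.1, eval z p.2⟩

/-- the complex values of a list of pairs -/
noncomputable def ev {ι : Type} (z : ι → ℝ) (V : List (MvPolynomial ι ℝ × MvPolynomial ι ℝ)) :
    List ℂ := V.map (cx z)

lemma ev_getD {ι : Type} (z : ι → ℝ) (V : List (MvPolynomial ι ℝ × MvPolynomial ι ℝ)) (i : ℕ) :
    (ev z V).getD i 0 = cx z (V.getD i (0, 0)) := by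
  unfold ev
  have h0 : (0 : ℂ) = cx z (0, 0) := by
    unfold cx
    simp only [map_zero]
    rfl
  rw [h0, List.getD_map]

lemma ev_append {ι : Type} (z : ι → ℝ) (V W : List (MvPolynomial ι ℝ × MvPolynomial ι ℝ)) :
    ev z (V ++ W) = ev z V ++ ev z W := by
  unfold ev
  rw [List.map_append]

/-- the old variables among the new ones -/
def lift (σ τ β : Type) : σ ⊕ τ → σ ⊕ (τ ⊕ β) := Sum.map id Sum.inl

/-- the old pairs -/
noncomputable def upV (τ β : Type)
    (V : List (MvPolynomial (σ ⊕ τ) ℝ × MvPolynomial (σ ⊕ τ) ℝ)) :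
    List (MvPolynomial (σ ⊕ (τ ⊕ β)) ℝ × MvPolynomial (σ ⊕ (τ ⊕ β)) ℝ) :=
  V.map fun p => (rename (lift σ τ β) p.1, rename (lift σ τ β) p.2)

lemma ev_upV {τ β : Type} (z : σ ⊕ (τ ⊕ β) → ℝ)
    (V : List (MvPolynomial (σ ⊕ τ) ℝ × MvPolynomial (σ ⊕ τ) ℝ)) :
    ev z (upV τ β V) = ev (z ∘ lift σ τ β) V := by
  unfold ev upV
  rw [List.map_map]
  apply List.map_congr_left
  intro p _
  simp only [Function.comp_apply, cx, eval_rename]

/-- the statement proved by induction -/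
def Bd (σ : Type) [Fintype σ] {Y : Type} (L : Y → (σ → ℝ) → ℝ) (T : Tree ℂ) (d : ℕ) : Prop :=
  ∀ (τ : Type) [Fintype τ] [DecidableEq τ] (H : List (MvPolynomial (σ ⊕ τ) ℝ))
    (V : List (MvPolynomial (σ ⊕ τ) ℝ × MvPolynomial (σ ⊕ τ) ℝ)),
    (∀ h ∈ H, h.totalDegree ≤ 2) → (∀ p ∈ V, p.1.totalDegree ≤ 1 ∧ p.2.totalDegree ≤ 1) →
    (∀ z : σ ⊕ τ → ℝ, (∀ h ∈ H, eval z h = 0) → T.AccEq (ev z V) →
      ∀ i, L i (z ∘ Sum.inl) ≠ 0) →
    ∀ P : Finset (σ → ℝ), (∀ p ∈ P, ∃ y : τ → ℝ, (∀ h ∈ H, eval (Sum.elim p y) h = 0) ∧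
      T.AccEq (ev (Sum.elim p y) V)) →
    (∀ p ∈ P, ∀ q ∈ P, p ≠ q → ∃ i, L i p * L i q < 0) →
    P.card ≤ 2 ^ d * 5 ^ (Fintype.card σ + Fintype.card τ + 4 * d)

lemma Bd.step {Y : Type} {L : Y → (σ → ℝ) → ℝ} {T T₀ : Tree ℂ} {d : ℕ} (hT : Bd σ L T d)
    {τ : Type} [Fintype τ] [DecidableEq τ] (β : Type) [Fintype β] [DecidableEq β]
    (H : List (MvPolynomial (σ ⊕ τ) ℝ))
    (V : List (MvPolynomial (σ ⊕ τ) ℝ × MvPolynomial (σ ⊕ τ) ℝ))
    (N : List (MvPolynomial (σ ⊕ (τ ⊕ β)) ℝ))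
    (W : List (MvPolynomial (σ ⊕ (τ ⊕ β)) ℝ × MvPolynomial (σ ⊕ (τ ⊕ β)) ℝ))
    (hH : ∀ h ∈ H, h.totalDegree ≤ 2) (hV : ∀ p ∈ V, p.1.totalDegree ≤ 1 ∧ p.2.totalDegree ≤ 1)
    (hN : ∀ h ∈ N, h.totalDegree ≤ 2) (hW : ∀ p ∈ W, p.1.totalDegree ≤ 1 ∧ p.2.totalDegree ≤ 1)
    (hS : ∀ z : σ ⊕ τ → ℝ, (∀ h ∈ H, eval z h = 0) → T₀.AccEq (ev z V) →
      ∀ i, L i (z ∘ Sum.inl) ≠ 0)
    (ha : ∀ z : σ ⊕ (τ ⊕ β) → ℝ, (∀ h ∈ N, eval z h = 0) →
      T.AccEq (ev (z ∘ lift σ τ β) V ++ ev z W) → T₀.AccEq (ev (z ∘ lift σ τ β) V))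
    (P : Finset (σ → ℝ))
    (hP : ∀ p ∈ P, ∃ (y : τ → ℝ) (b : β → ℝ), (∀ h ∈ H, eval (Sum.elim p y) h = 0) ∧
      (∀ h ∈ N, eval (Sum.elim p (Sum.elim y b)) h = 0) ∧
      T.AccEq (ev (Sum.elim p y) V ++ ev (Sum.elim p (Sum.elim y b)) W))
    (hsep : ∀ p ∈ P, ∀ q ∈ P, p ≠ q → ∃ i, L i p * L i q < 0) :
    P.card ≤ 2 ^ d * 5 ^ (Fintype.card σ + (Fintype.card τ + Fintype.card β) + 4 * d) := by
  have hlift : ∀ (p : σ → ℝ) (y : τ → ℝ) (b : β → ℝ),
      Sum.elim p (Sum.elim y b) ∘ lift σ τ β = Sum.elim p y := by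
    intro p y b
    funext s
    rcases s with s | s <;> rfl
  have h := hT (τ ⊕ β) (H.map (rename (lift σ τ β)) ++ N) (upV τ β V ++ W) ?_ ?_ ?_ P ?_ hsep
  · rwa [Fintype.card_sum] at h
  · intro h hh
    rcases List.mem_append.mp hh with hh | hh
    · obtain ⟨g, hg, rfl⟩ := List.mem_map.mp hh
      exact (totalDegree_rename_le _ _).trans (hH g hg)
    · exact hN h hh
  · intro p hp
    rcases List.mem_append.mp hp with hp | hp
    · unfold upV at hp
      obtain ⟨g, hg, rfl⟩ := List.mem_map.mp hp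
      exact ⟨(totalDegree_rename_le _ _).trans (hV g hg).1,
        (totalDegree_rename_le _ _).trans (hV g hg).2⟩
    · exact hW p hp
  · intro z hz hacc
    rw [ev_append, ev_upV] at hacc
    have h1 : ∀ h ∈ N, eval z h = 0 := fun h hh => hz h (List.mem_append_right _ hh)
    have h2 : ∀ h ∈ H, eval (z ∘ lift σ τ β) h = 0 := by
      intro h hh
      rw [← eval_rename]
      exact hz _ (List.mem_append_left _ (List.mem_map_of_mem hh))
    exact hS (z ∘ lift σ τ β) h2 (ha z h1 hacc)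
  · intro p hp
    obtain ⟨y, b, h1, h2, h3⟩ := hP p hp
    refine ⟨Sum.elim y b, ?_, ?_⟩
    · intro h hh
      rcases List.mem_append.mp hh with hh | hh
      · obtain ⟨g, hg, rfl⟩ := List.mem_map.mp hh
        rw [eval_rename, hlift]
        exact h1 g hg
      · exact h2 h hh
    · rw [ev_append, ev_upV, hlift]
      exact h3

end

end Pool.Agent.H546R2.BS
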