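import Pool.Agent.H546R2.BS.B2

set_option autoImplicit false
set_option linter.unusedSectionVars false

/-!
# The bound for complex computation trees
-/

namespace Pool.Agent.H546R2.BS

open MvPolynomial

section

variable {σ : Type} [Fintype σ] [DecidableEq σ]

/-- the renamed pair number `i` -/
noncomputable def nth {τ : Type} (β : Type)
    (V : List (MvPolynomial (σ ⊕ τ) ℝ × MvPolynomial (σ ⊕ τ) ℝ)) (i : ℕ) :
    MvPolynomial (σ ⊕ (τ ⊕ β)) ℝ × MvPolynomial (σ ⊕ (τ ⊕ β)) ℝ :=
  (rename (lift σ τ β) (V.getD i (0, 0)).1, rename (lift σ τ β) (V.getD i (0, 0)).2)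

lemma getD_mem_or {α : Type} (V : List α) (i : ℕ) (x : α) : V.getD i x ∈ V ∨ V.getD i x = x := by
  rcases Nat.lt_or_ge i V.length with h | h
  · left
    rw [List.getD_eq_getElem _ _ h]
    exact List.getElem_mem h
  · right
    exact List.getD_eq_default _ _ h

lemma nth_deg {τ : Type} (β : Type)
    (V : List (MvPolynomial (σ ⊕ τ) ℝ × MvPolynomial (σ ⊕ τ) ℝ))
    (hV : ∀ p ∈ V, p.1.totalDegree ≤ 1 ∧ p.2.totalDegree ≤ 1) (i : ℕ) :
    (nth β V i).1.totalDegree ≤ 1 ∧ (nth β V i).2.totalDegree ≤ 1 := by
  have h : (V.getD i (0, 0)).1.totalDegree ≤ 1 ∧ (V.getD i (0, 0)).2.totalDegree ≤ 1 := by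
    rcases getD_mem_or V i (0, 0) with h | h
    · exact hV _ h
    · rw [h]; simp
  exact ⟨(totalDegree_rename_le _ _).trans h.1, (totalDegree_rename_le _ _).trans h.2⟩

lemma nth_re {τ β : Type} (V : List (MvPolynomial (σ ⊕ τ) ℝ × MvPolynomial (σ ⊕ τ) ℝ)) (i : ℕ)
    (z : σ ⊕ (τ ⊕ β) → ℝ) :
    eval z (nth β V i).1 = ((ev (z ∘ lift σ τ β) V).getD i 0).re := by
  rw [ev_getD]
  unfold nth cx
  simp only [eval_rename]

lemma nth_im {τ β : Type} (V : List (MvPolynomial (σ ⊕ τ) ℝ × MvPolynomial (σ ⊕ τ) ℝ)) (i : ℕ)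
    (z : σ ⊕ (τ ⊕ β) → ℝ) :
    eval z (nth β V i).2 = ((ev (z ∘ lift σ τ β) V).getD i 0).im := by
  rw [ev_getD]
  unfold nth cx
  simp only [eval_rename]

lemma lift_elim {τ β : Type} (p : σ → ℝ) (y : τ → ℝ) (b : β → ℝ) :
    Sum.elim p (Sum.elim y b) ∘ lift σ τ β = Sum.elim p y := by
  funext s
  rcases s with s | s <;> rfl

/-- a new variable -/
noncomputable def nv (σ τ : Type) {β : Type} (b : β) : MvPolynomial (σ ⊕ (τ ⊕ β)) ℝ :=
  X (Sum.inr (Sum.inr b))

lemma nv_deg {τ β : Type} (b : β) : (nv σ τ b).totalDegree ≤ 1 := by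
  unfold nv
  rw [totalDegree_X]

lemma deg_two {ι : Type} {a b : MvPolynomial ι ℝ} (ha : a.totalDegree ≤ 1)
    (hb : b.totalDegree ≤ 1) : (a * b).totalDegree ≤ 2 :=
  (totalDegree_mul _ _).trans (by omega)

lemma deg_add {ι : Type} {a b : MvPolynomial ι ℝ} {d : ℕ} (ha : a.totalDegree ≤ d)
    (hb : b.totalDegree ≤ d) : (a + b).totalDegree ≤ d :=
  (totalDegree_add _ _).trans (max_le ha hb)

lemma deg_sub {ι : Type} {a b : MvPolynomial ι ℝ} {d : ℕ} (ha : a.totalDegree ≤ d)
    (hb : b.totalDegree ≤ d) : (a - b).totalDegree ≤ d :=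
  (totalDegree_sub _ _).trans (max_le ha hb)

lemma pow_bound {a d s t e : ℕ} (h : a ≤ 2 ^ d * 5 ^ (s + (t + e) + 4 * d)) (he : e ≤ 4) :
    a ≤ 2 ^ d * 5 ^ (s + t + 4 * (d + 1)) :=
  h.trans (Nat.mul_le_mul_left _ (Nat.pow_le_pow_right (by norm_num) (by omega)))

lemma two_bound {a b c d E : ℕ} (h : a ≤ b + c) (hb : b ≤ 2 ^ d * E) (hc : c ≤ 2 ^ d * E) :
    a ≤ 2 ^ (d + 1) * E := by
  have : 2 ^ (d + 1) * E = 2 ^ d * E + 2 ^ d * E := by rw [pow_succ]; ring
  omega

lemma one_bound {a d E : ℕ} (h : a ≤ 2 ^ d * E) : a ≤ 2 ^ (d + 1) * E :=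
  h.trans (Nat.mul_le_mul_right _ (Nat.pow_le_pow_right (by norm_num) (by omega)))

/-- **the bound for complex trees** -/
theorem tree_bd {Y : Type} [Finite Y] (L : Y → (σ → ℝ) → ℝ) (hL : ∀ i, Continuous (L i)) :
    ∀ (T : Tree ℂ) (d : ℕ), T.depth ≤ d → Bd σ L T d := by
  classical
  intro T
  induction T with
  | leaf b =>
    intro d _ τ _ _ H V hH hV hS P hP hsep
    cases b with
    | true =>
      refine (card_points_le H hH L hL (fun z hz => hS z hz rfl) P
        (fun p hp => ?_) hsep).trans ?_
      · obtain ⟨y, hy, _⟩ := hP p hp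
        exact ⟨y, hy⟩
      · calc 5 ^ (Fintype.card σ + Fintype.card τ) = 1 * 5 ^ (Fintype.card σ + Fintype.card τ) :=
              (one_mul _).symm
          _ ≤ 2 ^ d * 5 ^ (Fintype.card σ + Fintype.card τ + 4 * d) :=
            Nat.mul_le_mul Nat.one_le_two_pow (Nat.pow_le_pow_right (by norm_num) (by omega))
    | false =>
      have : P = ∅ := by
        rw [Finset.eq_empty_iff_forall_notMem]
        intro p hp
        obtain ⟨y, _, hy⟩ := hP p hp
        exact absurd hy (by simp [Tree.AccEq])
      rw [this]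
      simp
  | const c T ih =>
    intro d hd τ _ _ H V hH hV hS P hP hsep
    obtain ⟨d', rfl⟩ : ∃ d', d = d' + 1 := ⟨d - 1, by simp only [Tree.depth] at hd; omega⟩
    have hT := ih d' (by simp only [Tree.depth] at hd; omega)
    have hcx : ∀ z : σ ⊕ (τ ⊕ Fin 0) → ℝ, ev z [(C c.re, C c.im)] = [c] := by
      intro z
      unfold ev cx
      simp
    apply one_bound
    refine pow_bound (hT.step (T₀ := .const c T) (Fin 0) H V [] [(C c.re, C c.im)] hH hV
      (by simp) ?_ hS ?_ P ?_ hsep) (by simp)
    · intro p hp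
      rw [List.mem_singleton] at hp
      rw [hp, totalDegree_C, totalDegree_C]
      exact ⟨Nat.zero_le _, Nat.zero_le _⟩
    · intro z _ hacc
      rw [hcx] at hacc
      exact hacc
    · intro p hp
      obtain ⟨y, hy, hacc⟩ := hP p hp
      refine ⟨y, Fin.elim0, hy, by simp, ?_⟩
      rw [hcx]
      exact hacc
  | op o i j T ih =>
    intro d hd τ _ _ H V hH hV hS P hP hsep
    obtain ⟨d', rfl⟩ : ∃ d', d = d' + 1 := ⟨d - 1, by simp only [Tree.depth] at hd; omega⟩
    have hT := ih d' (by simp only [Tree.depth] at hd; omega)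
    cases o with
    | add =>
      obtain ⟨W, hWdef⟩ : ∃ W : List (MvPolynomial (σ ⊕ (τ ⊕ Fin 0)) ℝ ×
        MvPolynomial (σ ⊕ (τ ⊕ Fin 0)) ℝ), W = [((nth (Fin 0) V i).1 + (nth (Fin 0) V j).1,
          (nth (Fin 0) V i).2 + (nth (Fin 0) V j).2)] := ⟨_, rfl⟩
      have hcx : ∀ z : σ ⊕ (τ ⊕ Fin 0) → ℝ, ev z W =
          [(ev (z ∘ lift σ τ (Fin 0)) V).getD i 0 + (ev (z ∘ lift σ τ (Fin 0)) V).getD j 0] := by
        intro z
        rw [hWdef]
        unfold ev
        rw [List.map_singleton]
        congr 1
        apply Complex.ext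
        · simp only [cx, map_add, Complex.add_re]
          rw [nth_re, nth_re]; rfl
        · simp only [cx, map_add, Complex.add_im]
          rw [nth_im, nth_im]; rfl
      apply one_bound
      refine pow_bound (hT.step (T₀ := .op .add i j T) (Fin 0) H V [] W hH hV
        (by simp) ?_ hS ?_ P ?_ hsep) (by simp)
      · intro p hp
        rw [hWdef, List.mem_singleton] at hp
        rw [hp]
        exact ⟨deg_add (nth_deg _ V hV i).1 (nth_deg _ V hV j).1,
          deg_add (nth_deg _ V hV i).2 (nth_deg _ V hV j).2⟩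
      · intro z _ hacc
        rw [hcx] at hacc
        exact hacc
      · intro p hp
        obtain ⟨y, hy, hacc⟩ := hP p hp
        refine ⟨y, Fin.elim0, hy, by simp, ?_⟩
        rw [hcx, lift_elim]
        exact hacc
    | sub =>
      obtain ⟨W, hWdef⟩ : ∃ W : List (MvPolynomial (σ ⊕ (τ ⊕ Fin 0)) ℝ ×
        MvPolynomial (σ ⊕ (τ ⊕ Fin 0)) ℝ), W = [((nth (Fin 0) V i).1 - (nth (Fin 0) V j).1,
          (nth (Fin 0) V i).2 - (nth (Fin 0) V j).2)] := ⟨_, rfl⟩
      have hcx : ∀ z : σ ⊕ (τ ⊕ Fin 0) → ℝ, ev z W =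
          [(ev (z ∘ lift σ τ (Fin 0)) V).getD i 0 - (ev (z ∘ lift σ τ (Fin 0)) V).getD j 0] := by
        intro z
        rw [hWdef]
        unfold ev
        rw [List.map_singleton]
        congr 1
        apply Complex.ext
        · simp only [cx, map_sub, Complex.sub_re]
          rw [nth_re, nth_re]; rfl
        · simp only [cx, map_sub, Complex.sub_im]
          rw [nth_im, nth_im]; rfl
      apply one_bound
      refine pow_bound (hT.step (T₀ := .op .sub i j T) (Fin 0) H V [] W hH hV
        (by simp) ?_ hS ?_ P ?_ hsep) (by simp)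
      · intro p hp
        rw [hWdef, List.mem_singleton] at hp
        rw [hp]
        exact ⟨deg_sub (nth_deg _ V hV i).1 (nth_deg _ V hV j).1,
          deg_sub (nth_deg _ V hV i).2 (nth_deg _ V hV j).2⟩
      · intro z _ hacc
        rw [hcx] at hacc
        exact hacc
      · intro p hp
        obtain ⟨y, hy, hacc⟩ := hP p hp
        refine ⟨y, Fin.elim0, hy, by simp, ?_⟩
        rw [hcx, lift_elim]
        exact hacc
    | mul =>
      apply one_bound
      refine pow_bound (hT.step (T₀ := .op .mul i j T) (Fin 2) H V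
        [(nth (Fin 2) V i).1 * (nth (Fin 2) V j).1 - (nth (Fin 2) V i).2 * (nth (Fin 2) V j).2 -
          nv σ τ (0 : Fin 2),
         (nth (Fin 2) V i).1 * (nth (Fin 2) V j).2 + (nth (Fin 2) V i).2 * (nth (Fin 2) V j).1 -
          nv σ τ (1 : Fin 2)] [(nv σ τ (0 : Fin 2), nv σ τ (1 : Fin 2))] hH hV
        ?_ ?_ hS ?_ P ?_ hsep) (by simp)
      · intro h hh
        have hi := nth_deg (Fin 2) V hV i
        have hj := nth_deg (Fin 2) V hV j
        simp only [List.mem_cons, List.not_mem_nil, or_false] at hh
        rcases hh with rfl | rfl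
        · exact deg_sub (deg_sub (deg_two hi.1 hj.1) (deg_two hi.2 hj.2)) ((nv_deg _).trans (by norm_num))
        · exact deg_sub (deg_add (deg_two hi.1 hj.2) (deg_two hi.2 hj.1)) ((nv_deg _).trans (by norm_num))
      · intro p hp
        rw [List.mem_singleton] at hp
        rw [hp]
        exact ⟨nv_deg _, nv_deg _⟩
      · intro z hz hacc
        have h1 := hz _ List.mem_cons_self
        have h2 := hz _ (List.mem_cons_of_mem _ List.mem_cons_self)
        simp only [map_sub, map_add, map_mul, nth_re, nth_im] at h1 h2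
        have h3 : ev z [(nv σ τ (0 : Fin 2), nv σ τ (1 : Fin 2))] =
            [(ev (z ∘ lift σ τ (Fin 2)) V).getD i 0 * (ev (z ∘ lift σ τ (Fin 2)) V).getD j 0] := by
          unfold ev
          rw [List.map_singleton]
          congr 1
          apply Complex.ext
          · rw [Complex.mul_re]
            simp only [cx]
            unfold ev at h1
            linarith
          · rw [Complex.mul_im]
            simp only [cx]
            unfold ev at h2
            linarith
        rw [h3] at hacc
        exact hacc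
      · intro p hp
        obtain ⟨y, hy, hacc⟩ := hP p hp
        obtain ⟨c, hc⟩ : ∃ c : ℂ, c = (ev (Sum.elim p y) V).getD i 0 *
          (ev (Sum.elim p y) V).getD j 0 := ⟨_, rfl⟩
        refine ⟨y, ![c.re, c.im], hy, ?_, ?_⟩
        · intro h hh
          simp only [List.mem_cons, List.not_mem_nil, or_false] at hh
          rcases hh with rfl | rfl
          · simp only [map_sub, map_mul, nth_re, nth_im, lift_elim]
            simp only [nv, eval_X, Sum.elim_inr, Matrix.cons_val_zero]
            rw [hc, Complex.mul_re]; ring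
          · simp only [map_sub, map_add, map_mul, nth_re, nth_im, lift_elim]
            simp only [nv, eval_X, Sum.elim_inr, Matrix.cons_val_one, Matrix.cons_val_fin_one]
            rw [hc, Complex.mul_im]; ring
        · have h3 : ev (Sum.elim p (Sum.elim y ![c.re, c.im]))
              [(nv σ τ (0 : Fin 2), nv σ τ (1 : Fin 2))] = [c] := by
            unfold ev cx
            simp [nv]
          rw [h3, hc]
          exact hacc
    | div =>
      -- the points with zero divisor and the others
      obtain ⟨P₀, hP₀⟩ : ∃ P₀ : Finset (σ → ℝ), P₀ = P.filter (fun p => ∃ y : τ → ℝ,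
        (∀ h ∈ H, eval (Sum.elim p y) h = 0) ∧ (Tree.op .div i j T).AccEq (ev (Sum.elim p y) V) ∧
          (ev (Sum.elim p y) V).getD j 0 = 0) := ⟨_, rfl⟩
      obtain ⟨P₁, hP₁⟩ : ∃ P₁ : Finset (σ → ℝ), P₁ = P.filter (fun p => ∃ y : τ → ℝ,
        (∀ h ∈ H, eval (Sum.elim p y) h = 0) ∧ (Tree.op .div i j T).AccEq (ev (Sum.elim p y) V) ∧
          (ev (Sum.elim p y) V).getD j 0 ≠ 0) := ⟨_, rfl⟩
      have hcard : P.card ≤ P₀.card + P₁.card := by
        refine le_trans (Finset.card_le_card ?_) (Finset.card_union_le P₀ P₁)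
        intro p hp
        obtain ⟨y, hy, hacc⟩ := hP p hp
        rw [Finset.mem_union, hP₀, hP₁, Finset.mem_filter, Finset.mem_filter]
        by_cases h0 : (ev (Sum.elim p y) V).getD j 0 = 0
        · exact Or.inl ⟨hp, y, hy, hacc, h0⟩
        · exact Or.inr ⟨hp, y, hy, hacc, h0⟩
      have hsep₀ : ∀ p ∈ P₀, ∀ q ∈ P₀, p ≠ q → ∃ i, L i p * L i q < 0 := by
        intro p hp q hq
        rw [hP₀, Finset.mem_filter] at hp hq
        exact hsep p hp.1 q hq.1
      have hsep₁ : ∀ p ∈ P₁, ∀ q ∈ P₁, p ≠ q → ∃ i, L i p * L i q < 0 := by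
        intro p hp q hq
        rw [hP₁, Finset.mem_filter] at hp hq
        exact hsep p hp.1 q hq.1
      refine two_bound hcard ?_ ?_
      · refine pow_bound (hT.step (T₀ := .op .div i j T) (Fin 0) H V
          [(nth (Fin 0) V j).1, (nth (Fin 0) V j).2] [(0, 0)] hH hV ?_ ?_ hS ?_ P₀ ?_ hsep₀)
          (by simp)
        · intro h hh
          have hj := nth_deg (Fin 0) V hV j
          simp only [List.mem_cons, List.not_mem_nil, or_false] at hh
          rcases hh with rfl | rfl
          · exact hj.1.trans (by norm_num)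
          · exact hj.2.trans (by norm_num)
        · intro p hp
          rw [List.mem_singleton] at hp
          rw [hp]; simp
        · intro z hz hacc
          have h1 := hz _ List.mem_cons_self
          have h2 := hz _ (List.mem_cons_of_mem _ List.mem_cons_self)
          rw [nth_re] at h1
          rw [nth_im] at h2
          have h3 : (ev (z ∘ lift σ τ (Fin 0)) V).getD j 0 = 0 := Complex.ext h1 h2
          have h4 : ev z [((0 : MvPolynomial (σ ⊕ (τ ⊕ Fin 0)) ℝ),
              (0 : MvPolynomial (σ ⊕ (τ ⊕ Fin 0)) ℝ))] = [0] := by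
            unfold ev cx
            rw [List.map_singleton, map_zero]
            rfl
          rw [h4] at hacc
          simp only [Tree.AccEq, Op.eval]
          rw [h3, div_zero]
          exact hacc
        · intro p hp
          rw [hP₀, Finset.mem_filter] at hp
          obtain ⟨y, hy, hacc, h0⟩ := hp.2
          refine ⟨y, Fin.elim0, hy, ?_, ?_⟩
          · intro h hh
            simp only [List.mem_cons, List.not_mem_nil, or_false] at hh
            rcases hh with rfl | rfl
            · rw [nth_re, lift_elim, h0]; rfl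
            · rw [nth_im, lift_elim, h0]; rfl
          · have h4 : ∀ z, ev z [((0 : MvPolynomial (σ ⊕ (τ ⊕ Fin 0)) ℝ),
              (0 : MvPolynomial (σ ⊕ (τ ⊕ Fin 0)) ℝ))] = [0] := by
              intro z
              unfold ev cx
              rw [List.map_singleton, map_zero]
              rfl
            rw [h4]
            simp only [Tree.AccEq, Op.eval] at hacc
            rw [h0, div_zero] at hacc
            exact hacc
      · refine pow_bound (hT.step (T₀ := .op .div i j T) (Fin 4) H V
          [nv σ τ (0 : Fin 4) * (nth (Fin 4) V j).1 - nv σ τ (1 : Fin 4) * (nth (Fin 4) V j).2 -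
            (nth (Fin 4) V i).1,
           nv σ τ (0 : Fin 4) * (nth (Fin 4) V j).2 + nv σ τ (1 : Fin 4) * (nth (Fin 4) V j).1 -
            (nth (Fin 4) V i).2,
           nv σ τ (2 : Fin 4) * (nth (Fin 4) V j).1 - nv σ τ (3 : Fin 4) * (nth (Fin 4) V j).2 - 1,
           nv σ τ (2 : Fin 4) * (nth (Fin 4) V j).2 + nv σ τ (3 : Fin 4) * (nth (Fin 4) V j).1]
          [(nv σ τ (0 : Fin 4), nv σ τ (1 : Fin 4))] hH hV
          ?_ ?_ hS ?_ P₁ ?_ hsep₁) (by simp)
        · intro h hh
          have hi := nth_deg (Fin 4) V hV i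
          have hj := nth_deg (Fin 4) V hV j
          simp only [List.mem_cons, List.not_mem_nil, or_false] at hh
          rcases hh with rfl | rfl | rfl | rfl
          · exact deg_sub (deg_sub (deg_two (nv_deg _) hj.1) (deg_two (nv_deg _) hj.2))
              (hi.1.trans (by norm_num))
          · exact deg_sub (deg_add (deg_two (nv_deg _) hj.2) (deg_two (nv_deg _) hj.1))
              (hi.2.trans (by norm_num))
          · exact deg_sub (deg_sub (deg_two (nv_deg _) hj.1) (deg_two (nv_deg _) hj.2))
              (by rw [totalDegree_one]; norm_num)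
          · exact deg_add (deg_two (nv_deg _) hj.2) (deg_two (nv_deg _) hj.1)
        · intro p hp
          rw [List.mem_singleton] at hp
          rw [hp]
          exact ⟨nv_deg _, nv_deg _⟩
        · intro z hz hacc
          have h1 := hz _ List.mem_cons_self
          have h2 := hz _ (List.mem_cons_of_mem _ List.mem_cons_self)
          have h3 := hz _ (List.mem_cons_of_mem _ (List.mem_cons_of_mem _ List.mem_cons_self))
          have h4 := hz _ (List.mem_cons_of_mem _ (List.mem_cons_of_mem _
            (List.mem_cons_of_mem _ List.mem_cons_self)))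
          simp only [map_sub, map_add, map_mul, nth_re, nth_im, map_one] at h1 h2 h3 h4
          obtain ⟨A, hA⟩ : ∃ A, A = (ev (z ∘ lift σ τ (Fin 4)) V).getD i 0 := ⟨_, rfl⟩
          obtain ⟨B, hB⟩ : ∃ B, B = (ev (z ∘ lift σ τ (Fin 4)) V).getD j 0 := ⟨_, rfl⟩
          rw [← hA, ← hB] at h1 h2
          rw [← hB] at h3 h4
          obtain ⟨Q, hQ⟩ : ∃ Q : ℂ, Q = ⟨eval z (nv σ τ (0 : Fin 4)), eval z (nv σ τ (1 : Fin 4))⟩ :=
            ⟨_, rfl⟩
          obtain ⟨J, hJ⟩ : ∃ J : ℂ, J = ⟨eval z (nv σ τ (2 : Fin 4)), eval z (nv σ τ (3 : Fin 4))⟩ :=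
            ⟨_, rfl⟩
          have h5 : Q * B = A := by
            apply Complex.ext
            · rw [Complex.mul_re, hQ]; simp only; linarith
            · rw [Complex.mul_im, hQ]; simp only; linarith
          have h6 : J * B = 1 := by
            apply Complex.ext
            · rw [Complex.mul_re, hJ, Complex.one_re]; simp only; linarith
            · rw [Complex.mul_im, hJ, Complex.one_im]; simp only; linarith
          have h7 : B ≠ 0 := right_ne_zero_of_mul (by rw [h6]; exact one_ne_zero)
          have h8 : Q = A / B := by rw [eq_div_iff h7]; exact h5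
          have h9 : ev z [(nv σ τ (0 : Fin 4), nv σ τ (1 : Fin 4))] = [A / B] := by
            rw [← h8, hQ]; rfl
          rw [h9] at hacc
          simp only [Tree.AccEq, Op.eval]
          rw [← hA, ← hB]
          exact hacc
        · intro p hp
          rw [hP₁, Finset.mem_filter] at hp
          obtain ⟨y, hy, hacc, h0⟩ := hp.2
          obtain ⟨A, hA⟩ : ∃ A, A = (ev (Sum.elim p y) V).getD i 0 := ⟨_, rfl⟩
          obtain ⟨B, hB⟩ : ∃ B, B = (ev (Sum.elim p y) V).getD j 0 := ⟨_, rfl⟩
          simp only [Tree.AccEq, Op.eval] at hacc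
          rw [← hB] at h0
          rw [← hA, ← hB] at hacc
          have h5 : A / B * B = A := div_mul_cancel₀ A h0
          have h6 : B⁻¹ * B = 1 := inv_mul_cancel₀ h0
          have h5r := congrArg Complex.re h5
          have h5i := congrArg Complex.im h5
          have h6r := congrArg Complex.re h6
          have h6i := congrArg Complex.im h6
          rw [Complex.mul_re] at h5r h6r
          rw [Complex.mul_im] at h5i h6i
          rw [Complex.one_re] at h6r
          rw [Complex.one_im] at h6i
          refine ⟨y, ![(A / B).re, (A / B).im, (B⁻¹).re, (B⁻¹).im], hy, ?_, ?_⟩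
          · intro h hh
            simp only [List.mem_cons, List.not_mem_nil, or_false] at hh
            rcases hh with rfl | rfl | rfl | rfl
            · simp only [map_sub, map_mul, nth_re, nth_im, lift_elim, ← hA, ← hB]
              simp only [nv, eval_X, Sum.elim_inr]
              simp only [Matrix.cons_val_zero, Matrix.cons_val_one]
              linarith
            · simp only [map_sub, map_add, map_mul, nth_re, nth_im, lift_elim, ← hA, ← hB]
              simp only [nv, eval_X, Sum.elim_inr]
              simp only [Matrix.cons_val_zero, Matrix.cons_val_one]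
              linarith
            · simp only [map_sub, map_mul, nth_re, nth_im, lift_elim, ← hB, map_one]
              simp only [nv, eval_X, Sum.elim_inr]
              simp only [Matrix.cons_val]
              linarith
            · simp only [map_add, map_mul, nth_re, nth_im, lift_elim, ← hB]
              simp only [nv, eval_X, Sum.elim_inr]
              simp only [Matrix.cons_val]
              linarith
          · have h3 : ev (Sum.elim p (Sum.elim y ![(A / B).re, (A / B).im, (B⁻¹).re, (B⁻¹).im]))
                [(nv σ τ (0 : Fin 4), nv σ τ (1 : Fin 4))] = [A / B] := by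
              unfold ev cx
              simp only [List.map_singleton, nv, eval_X, Sum.elim_inr, Matrix.cons_val_zero,
                Matrix.cons_val_one]
            rw [h3]
            exact hacc
  | test i T T' ih ih' =>
    intro d hd τ _ _ H V hH hV hS P hP hsep
    obtain ⟨d', rfl⟩ : ∃ d', d = d' + 1 := ⟨d - 1, by simp only [Tree.depth] at hd; omega⟩
    have hT := ih d' (by simp only [Tree.depth] at hd; omega)
    have hT' := ih' d' (by simp only [Tree.depth] at hd; omega)
    obtain ⟨P₀, hP₀⟩ : ∃ P₀ : Finset (σ → ℝ), P₀ = P.filter (fun p => ∃ y : τ → ℝ,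
      (∀ h ∈ H, eval (Sum.elim p y) h = 0) ∧ (ev (Sum.elim p y) V).getD i 0 = 0 ∧
        T.AccEq (ev (Sum.elim p y) V)) := ⟨_, rfl⟩
    obtain ⟨P₁, hP₁⟩ : ∃ P₁ : Finset (σ → ℝ), P₁ = P.filter (fun p => ∃ y : τ → ℝ,
      (∀ h ∈ H, eval (Sum.elim p y) h = 0) ∧ (ev (Sum.elim p y) V).getD i 0 ≠ 0 ∧
        T'.AccEq (ev (Sum.elim p y) V)) := ⟨_, rfl⟩
    have hcard : P.card ≤ P₀.card + P₁.card := by
      refine le_trans (Finset.card_le_card ?_) (Finset.card_union_le P₀ P₁)
      intro p hp
      obtain ⟨y, hy, hacc⟩ := hP p hp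
      rw [Finset.mem_union, hP₀, hP₁, Finset.mem_filter, Finset.mem_filter]
      simp only [Tree.AccEq] at hacc
      rcases hacc with h0 | h0
      · exact Or.inl ⟨hp, y, hy, h0⟩
      · exact Or.inr ⟨hp, y, hy, h0⟩
    have hsep₀ : ∀ p ∈ P₀, ∀ q ∈ P₀, p ≠ q → ∃ i, L i p * L i q < 0 := by
      intro p hp q hq
      rw [hP₀, Finset.mem_filter] at hp hq
      exact hsep p hp.1 q hq.1
    have hsep₁ : ∀ p ∈ P₁, ∀ q ∈ P₁, p ≠ q → ∃ i, L i p * L i q < 0 := by
      intro p hp q hq
      rw [hP₁, Finset.mem_filter] at hp hq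
      exact hsep p hp.1 q hq.1
    refine two_bound hcard ?_ ?_
    · refine pow_bound (hT.step (T₀ := .test i T T') (Fin 0) H V
        [(nth (Fin 0) V i).1, (nth (Fin 0) V i).2] [] hH hV ?_ (by simp) hS ?_ P₀ ?_ hsep₀)
        (by simp)
      · intro h hh
        have hj := nth_deg (Fin 0) V hV i
        simp only [List.mem_cons, List.not_mem_nil, or_false] at hh
        rcases hh with rfl | rfl
        · exact hj.1.trans (by norm_num)
        · exact hj.2.trans (by norm_num)
      · intro z hz hacc
        have h1 := hz _ List.mem_cons_self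
        have h2 := hz _ (List.mem_cons_of_mem _ List.mem_cons_self)
        rw [nth_re] at h1
        rw [nth_im] at h2
        have h3 : (ev (z ∘ lift σ τ (Fin 0)) V).getD i 0 = 0 := Complex.ext h1 h2
        simp only [Tree.AccEq]
        left
        refine ⟨h3, ?_⟩
        simpa [ev] using hacc
      · intro p hp
        rw [hP₀, Finset.mem_filter] at hp
        obtain ⟨y, hy, h0, hacc⟩ := hp.2
        refine ⟨y, Fin.elim0, hy, ?_, ?_⟩
        · intro h hh
          simp only [List.mem_cons, List.not_mem_nil, or_false] at hh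
          rcases hh with rfl | rfl
          · rw [nth_re, lift_elim, h0]; rfl
          · rw [nth_im, lift_elim, h0]; rfl
        · simpa [ev] using hacc
    · refine pow_bound (hT'.step (T₀ := .test i T T') (Fin 2) H V
        [nv σ τ (0 : Fin 2) * (nth (Fin 2) V i).1 - nv σ τ (1 : Fin 2) * (nth (Fin 2) V i).2 - 1,
         nv σ τ (0 : Fin 2) * (nth (Fin 2) V i).2 + nv σ τ (1 : Fin 2) * (nth (Fin 2) V i).1]
        [] hH hV ?_ (by simp) hS ?_ P₁ ?_ hsep₁) (by simp)
      · intro h hh
        have hi := nth_deg (Fin 2) V hV i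
        simp only [List.mem_cons, List.not_mem_nil, or_false] at hh
        rcases hh with rfl | rfl
        · exact deg_sub (deg_sub (deg_two (nv_deg _) hi.1) (deg_two (nv_deg _) hi.2))
            (by rw [totalDegree_one]; norm_num)
        · exact deg_add (deg_two (nv_deg _) hi.2) (deg_two (nv_deg _) hi.1)
      · intro z hz hacc
        have h3 := hz _ List.mem_cons_self
        have h4 := hz _ (List.mem_cons_of_mem _ List.mem_cons_self)
        simp only [map_sub, map_add, map_mul, nth_re, nth_im, map_one] at h3 h4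
        obtain ⟨B, hB⟩ : ∃ B, B = (ev (z ∘ lift σ τ (Fin 2)) V).getD i 0 := ⟨_, rfl⟩
        rw [← hB] at h3 h4
        obtain ⟨J, hJ⟩ : ∃ J : ℂ, J = ⟨eval z (nv σ τ (0 : Fin 2)), eval z (nv σ τ (1 : Fin 2))⟩ :=
          ⟨_, rfl⟩
        have h6 : J * B = 1 := by
          apply Complex.ext
          · rw [Complex.mul_re, hJ, Complex.one_re]; simp only; linarith
          · rw [Complex.mul_im, hJ, Complex.one_im]; simp only; linarith
        have h7 : B ≠ 0 := right_ne_zero_of_mul (by rw [h6]; exact one_ne_zero)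
        simp only [Tree.AccEq]
        right
        refine ⟨by rw [← hB]; exact h7, ?_⟩
        simpa [ev] using hacc
      · intro p hp
        rw [hP₁, Finset.mem_filter] at hp
        obtain ⟨y, hy, h0, hacc⟩ := hp.2
        obtain ⟨B, hB⟩ : ∃ B, B = (ev (Sum.elim p y) V).getD i 0 := ⟨_, rfl⟩
        rw [← hB] at h0
        have h6 : B⁻¹ * B = 1 := inv_mul_cancel₀ h0
        have h6r := congrArg Complex.re h6
        have h6i := congrArg Complex.im h6
        rw [Complex.mul_re] at h6r
        rw [Complex.mul_im] at h6i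
        rw [Complex.one_re] at h6r
        rw [Complex.one_im] at h6i
        refine ⟨y, ![(B⁻¹).re, (B⁻¹).im], hy, ?_, ?_⟩
        · intro h hh
          simp only [List.mem_cons, List.not_mem_nil, or_false] at hh
          rcases hh with rfl | rfl
          · simp only [map_sub, map_mul, nth_re, nth_im, lift_elim, ← hB, map_one]
            simp only [nv, eval_X, Sum.elim_inr]
            simp only [Matrix.cons_val_zero, Matrix.cons_val_one, Matrix.cons_val_fin_one]
            linarith
          · simp only [map_add, map_mul, nth_re, nth_im, lift_elim, ← hB]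
            simp only [nv, eval_X, Sum.elim_inr]
            simp only [Matrix.cons_val_zero, Matrix.cons_val_one, Matrix.cons_val_fin_one]
            linarith
        · simpa [ev] using hacc

end

end Pool.Agent.H546R2.BS
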