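import Mathlib

set_option autoImplicit false
set_option linter.unusedSectionVars false

/-!
# Systems of polynomial equations in the dense encoding
-/

namespace Pool.Agent.H546R2.BS

/-- The exponent vectors of the monomials of degree at most `d` in the unknowns `ι`. -/
def Mon (ι : Type) [Fintype ι] (d : ℕ) : Type := {m : ι → Fin (d + 1) // ∑ j, (m j : ℕ) ≤ d}

instance (ι : Type) [Fintype ι] [DecidableEq ι] (d : ℕ) : Fintype (Mon ι d) := by
  unfold Mon; infer_instance

instance (ι : Type) [Fintype ι] [DecidableEq ι] (d : ℕ) : DecidableEq (Mon ι d) := by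
  unfold Mon; infer_instance

/-- The coefficients of a system of equations with unknowns `ι` and equations `κ`, the equation `i`
having degree at most `deg i`: one coefficient for every monomial of degree at most `deg i`. -/
def Coef (ι : Type) [Fintype ι] {κ : Type} (deg : κ → ℕ) : Type := Σ i : κ, Mon ι (deg i)

instance (ι : Type) [Fintype ι] [DecidableEq ι] {κ : Type} [Fintype κ] (deg : κ → ℕ) :
    Fintype (Coef ι deg) := by
  unfold Coef; infer_instance

instance (ι : Type) [Fintype ι] [DecidableEq ι] {κ : Type} [DecidableEq κ] (deg : κ → ℕ) :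
    DecidableEq (Coef ι deg) := by
  unfold Coef; infer_instance

/-- The value of a monomial. -/
def Mon.val {ι : Type} [Fintype ι] {d : ℕ} {K : Type} [CommRing K] (m : Mon ι d) (z : ι → K) : K :=
  ∏ j, z j ^ (m.1 j : ℕ)

/-- The system with the coefficients `a` has a common zero in `K`. -/
def Solvable {ι : Type} [Fintype ι] [DecidableEq ι] {κ : Type} (deg : κ → ℕ) {K : Type}
    [CommRing K] (a : Coef ι deg → K) : Prop :=
  ∃ z : ι → K, ∀ i, ∑ m : Mon ι (deg i), a ⟨i, m⟩ * m.val z = 0

/-- The system with the coefficients `a` has a common zero with all coordinates `0` or `1`. -/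
def Solvable01 {ι : Type} [Fintype ι] [DecidableEq ι] {κ : Type} (deg : κ → ℕ) {K : Type}
    [CommRing K] (a : Coef ι deg → K) : Prop :=
  ∃ z : ι → K, (∀ j, z j = 0 ∨ z j = 1) ∧ ∀ i, ∑ m : Mon ι (deg i), a ⟨i, m⟩ * m.val z = 0

/-! ### The number of monomials -/

/-- exponent vectors as functions with natural values -/
def expo (ι : Type) [Fintype ι] [DecidableEq ι] (d : ℕ) : Finset (ι → ℕ) :=
  (Fintype.piFinset fun _ => Finset.range (d + 1)).filter fun m => ∑ j, m j ≤ d

lemma mem_expo {ι : Type} [Fintype ι] [DecidableEq ι] (d : ℕ) (m : ι → ℕ) :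
    m ∈ expo ι d ↔ ∑ j, m j ≤ d := by
  unfold expo
  rw [Finset.mem_filter, Fintype.mem_piFinset]
  constructor
  · exact fun h => h.2
  · intro h
    refine ⟨fun j => ?_, h⟩
    rw [Finset.mem_range]
    have : m j ≤ ∑ j, m j := Finset.single_le_sum (fun _ _ => Nat.zero_le _) (Finset.mem_univ j)
    omega

lemma card_expo {ι : Type} [Fintype ι] [DecidableEq ι] (d : ℕ) :
    (expo ι d).card ≤ (Fintype.card ι + 1) ^ d := by
  induction d with
  | zero =>
    rw [pow_zero]
    apply Finset.card_le_one.mpr
    intro a ha b hb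
    rw [mem_expo] at ha hb
    funext j
    have h1 : a j ≤ ∑ j, a j := Finset.single_le_sum (fun _ _ => Nat.zero_le _) (Finset.mem_univ j)
    have h2 : b j ≤ ∑ j, b j := Finset.single_le_sum (fun _ _ => Nat.zero_le _) (Finset.mem_univ j)
    omega
  | succ d ih =>
    have hsub : expo ι (d + 1) ⊆ insert 0 ((Finset.univ ×ˢ expo ι d).image
        fun x => x.2 + Pi.single x.1 1) := by
      intro m hm
      rw [mem_expo] at hm
      rw [Finset.mem_insert]
      by_cases h0 : m = 0
      · exact Or.inl h0
      · right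
        obtain ⟨v, hv⟩ : ∃ v, m v ≠ 0 := by
          by_contra hcon
          push Not at hcon
          exact h0 (funext hcon)
        have hm' : (m - Pi.single v 1) + Pi.single v 1 = m := by
          funext j
          by_cases hj : j = v
          · subst hj
            simp only [Pi.add_apply, Pi.sub_apply, Pi.single_eq_same]
            omega
          · simp only [Pi.add_apply, Pi.sub_apply, Pi.single_eq_of_ne hj]
            omega
        rw [Finset.mem_image]
        refine ⟨(v, m - Pi.single v 1), ?_, hm'⟩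
        rw [Finset.mem_product, mem_expo]
        refine ⟨Finset.mem_univ _, ?_⟩
        have h1 : ∑ j, m j = ∑ j, (m - (Pi.single v 1 : ι → ℕ)) j +
            ∑ j, (Pi.single v 1 : ι → ℕ) j := by
          rw [← Finset.sum_add_distrib]
          apply Finset.sum_congr rfl
          intro j _
          have := congrFun hm' j
          simp only [Pi.add_apply] at this
          exact this.symm
        rw [Finset.sum_pi_single'] at h1
        simp only [Finset.mem_univ, if_true] at h1
        simp only
        omega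
    refine (Finset.card_le_card hsub).trans ((Finset.card_insert_le _ _).trans ?_)
    have h2 := Finset.card_image_le (s := Finset.univ ×ˢ expo ι d)
      (f := fun x => x.2 + Pi.single x.1 1)
    rw [Finset.card_product, Finset.card_univ] at h2
    have h3 : Fintype.card ι * (expo ι d).card ≤ Fintype.card ι * (Fintype.card ι + 1) ^ d :=
      Nat.mul_le_mul_left _ ih
    have h4 : 1 ≤ (Fintype.card ι + 1) ^ d := Nat.one_le_pow _ _ (by omega)
    calc _ ≤ Fintype.card ι * (Fintype.card ι + 1) ^ d + (Fintype.card ι + 1) ^ d := by omega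
      _ = (Fintype.card ι + 1) ^ (d + 1) := by rw [pow_succ]; ring

lemma card_Mon (ι : Type) [Fintype ι] [DecidableEq ι] (d : ℕ) :
    Fintype.card (Mon ι d) ≤ (Fintype.card ι + 1) ^ d := by
  refine le_trans ?_ (card_expo (ι := ι) d)
  rw [← Fintype.card_coe]
  apply Fintype.card_le_of_injective (fun m : Mon ι d =>
    (⟨fun j => (m.1 j : ℕ), (mem_expo _ _).mpr m.2⟩ : expo ι d))
  intro m m' h
  apply Subtype.ext
  funext j
  have h1 := congrFun (congrArg Subtype.val h) j
  exact Fin.ext h1

/-! ### Sparse systems -/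

section Sparse

variable {ι : Type} [Fintype ι] [DecidableEq ι]

/-- the monomial with given exponents -/
def mk (d : ℕ) (m : ι → ℕ) (h : ∑ j, m j ≤ d) : Mon ι d :=
  ⟨fun j => ⟨m j, Nat.lt_succ_of_le
    ((Finset.single_le_sum (fun _ _ => Nat.zero_le _) (Finset.mem_univ j)).trans h)⟩, h⟩

lemma mk_val (d : ℕ) (m : ι → ℕ) (h : ∑ j, m j ≤ d) {K : Type} [CommRing K] (z : ι → K) :
    (mk d m h).val z = ∏ j, z j ^ m j := rfl

/-- coefficients of a sparse polynomial -/
def sp {d : ℕ} {T : Type} [Fintype T] (μ : T → Mon ι d) {K : Type} [CommRing K] (c : T → K)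
    (m : Mon ι d) : K := ∑ t, if μ t = m then c t else 0

lemma sum_sp {d : ℕ} {T : Type} [Fintype T] (μ : T → Mon ι d) {K : Type} [CommRing K] (c : T → K)
    (z : ι → K) : ∑ m, sp μ c m * m.val z = ∑ t, c t * (μ t).val z := by
  unfold sp
  simp_rw [Finset.sum_mul]
  rw [Finset.sum_comm]
  apply Finset.sum_congr rfl
  intro t _
  rw [Finset.sum_eq_single (μ t)]
  · rw [if_pos rfl]
  · intro m _ hm
    rw [if_neg (fun h => hm h.symm), zero_mul]
  · intro h; exact absurd (Finset.mem_univ _) h

lemma prod_single (v : ι) (e : ℕ) {K : Type} [CommRing K] (z : ι → K) :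
    ∏ j, z j ^ (Pi.single v e : ι → ℕ) j = z v ^ e := by
  rw [Finset.prod_eq_single v]
  · rw [Pi.single_eq_same]
  · intro j _ hj
    rw [Pi.single_eq_of_ne hj, pow_zero]
  · intro h; exact absurd (Finset.mem_univ _) h

lemma sum_single (v : ι) (e : ℕ) : ∑ j, (Pi.single v e : ι → ℕ) j = e := by
  rw [Finset.sum_pi_single']
  simp

end Sparse

/-! ### The special systems -/

section Special

variable (n : ℕ)

/-- the unknowns: three selectors with `n` unknowns each and `n` bits -/
abbrev Un (n : ℕ) : Type := (Fin 3 × Fin n) ⊕ Fin n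

/-- the equations -/
abbrev Eq' (n : ℕ) : Type := (Un n ⊕ Fin 3) ⊕ Unit

/-- their degrees -/
def dg (n : ℕ) : Eq' n → ℕ
  | .inl (.inl _) => 2
  | .inl (.inr _) => 1
  | .inr _ => 3

/-- the monomials of the equation `z ^ 2 - z = 0` -/
def μ₁ (v : Un n) : Bool → Mon (Un n) 2
  | true => mk 2 (Pi.single v 2) (by rw [sum_single])
  | false => mk 2 (Pi.single v 1) (by rw [sum_single]; norm_num)

/-- the coefficients -/
def c₁ {K : Type} [CommRing K] : Bool → K
  | true => 1
  | false => -1

/-- the monomials of the equation `∑ z = 1` -/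
def μ₂ (s : Fin 3) : Option (Fin n) → Mon (Un n) 1
  | some j => mk 1 (Pi.single (.inl (s, j)) 1) (by rw [sum_single])
  | none => mk 1 0 (by simp)

/-- the coefficients -/
def c₂ {K : Type} [CommRing K] : Option (Fin n) → K
  | some _ => 1
  | none => -1

/-- the monomials of the cubic equation -/
def μ₃ : (Fin n × Fin n × Fin n) ⊕ Fin n → Mon (Un n) 3
  | .inl (i, j, k) => mk 3 (Pi.single (.inl (0, i)) 1 + Pi.single (.inl (1, j)) 1 +
      Pi.single (.inl (2, k)) 1) (by
        simp only [Pi.add_apply, Finset.sum_add_distrib, sum_single]; norm_num)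
  | .inr l => mk 3 (Pi.single (.inr l) 1) (by rw [sum_single]; norm_num)

/-- the coefficients -/
def c₃ {K : Type} [CommRing K] (β : Fin n × Fin n × Fin n → K) :
    (Fin n × Fin n × Fin n) ⊕ Fin n → K
  | .inl s => β s
  | .inr l => -(2 ^ (l : ℕ))

/-- the coefficients of the special system -/
def spec {K : Type} [CommRing K] (β : Fin n × Fin n × Fin n → K) : Coef (Un n) (dg n) → K
  | ⟨.inl (.inl v), m⟩ => sp (μ₁ n v) c₁ m
  | ⟨.inl (.inr s), m⟩ => sp (μ₂ n s) (c₂ n) m
  | ⟨.inr (), m⟩ => sp (μ₃ n) (c₃ n β) m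

variable {n} {K : Type} [Field K] [CharZero K]

lemma eq_one (v : Un n) (z : Un n → K) :
    ∑ t, c₁ t * (μ₁ n v t).val z = z v ^ 2 - z v := by
  rw [Fintype.sum_bool]
  simp only [c₁, μ₁, mk_val, prod_single]
  ring

lemma eq_two (s : Fin 3) (z : Un n → K) :
    ∑ t, c₂ n t * (μ₂ n s t).val z = (∑ j, z (.inl (s, j))) - 1 := by
  rw [Fintype.sum_option]
  simp only [c₂, μ₂, mk_val, prod_single]
  simp
  ring

lemma eq_three (β : Fin n × Fin n × Fin n → K) (z : Un n → K) :
    ∑ t, c₃ n β t * (μ₃ n t).val z =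
      (∑ i, ∑ j, ∑ k, β (i, j, k) * (z (.inl (0, i)) * z (.inl (1, j)) * z (.inl (2, k)))) -
        ∑ l : Fin n, 2 ^ (l : ℕ) * z (.inr l) := by
  rw [Fintype.sum_sum_type, Fintype.sum_prod_type, sub_eq_add_neg, ← Finset.sum_neg_distrib]
  congr 1
  · apply Finset.sum_congr rfl
    intro i _
    rw [Fintype.sum_prod_type]
    apply Finset.sum_congr rfl
    intro j _
    apply Finset.sum_congr rfl
    intro k _
    simp only [c₃, μ₃, mk_val, Pi.add_apply, pow_add, Finset.prod_mul_distrib, prod_single, pow_one]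
  · apply Finset.sum_congr rfl
    intro l _
    simp only [c₃, μ₃, mk_val, prod_single, pow_one]
    ring

/-- a 0-1 vector with sum one is a unit vector -/
lemma unit_vector {α : Type} [Fintype α] [DecidableEq α] (x : α → K)
    (hx : ∀ j, x j ^ 2 - x j = 0) (hs : (∑ j, x j) - 1 = 0) :
    ∃ i, x i = 1 ∧ ∀ j, j ≠ i → x j = 0 := by
  classical
  have h01 : ∀ j, x j = if x j = 1 then 1 else 0 := by
    intro j
    have h1 : x j * (x j - 1) = 0 := by linear_combination hx j
    rcases mul_eq_zero.mp h1 with h2 | h2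
    · rw [if_neg (by rw [h2]; exact zero_ne_one)]; exact h2
    · have h3 : x j = 1 := sub_eq_zero.mp h2
      rw [if_pos h3]; exact h3
  have h2 : ∑ j, x j = ((Finset.univ.filter fun j => x j = 1).card : K) := by
    rw [Finset.card_filter, Nat.cast_sum]
    apply Finset.sum_congr rfl
    intro j _
    conv_lhs => rw [h01 j]
    split_ifs <;> simp
  have h3 : (Finset.univ.filter fun j => x j = 1).card = 1 := by
    have : ((Finset.univ.filter fun j => x j = 1).card : K) = ((1 : ℕ) : K) := by
      rw [← h2, Nat.cast_one]; exact sub_eq_zero.mp hs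
    exact_mod_cast this
  obtain ⟨i, hi⟩ := Finset.card_eq_one.mp h3
  refine ⟨i, ?_, ?_⟩
  · have : i ∈ Finset.univ.filter fun j => x j = 1 := by rw [hi]; exact Finset.mem_singleton_self i
    exact (Finset.mem_filter.mp this).2
  · intro j hj
    rw [h01 j, if_neg]
    intro h1
    have : j ∈ Finset.univ.filter fun j => x j = 1 := Finset.mem_filter.mpr ⟨Finset.mem_univ _, h1⟩
    rw [hi, Finset.mem_singleton] at this
    exact hj this

/-- binary digits -/
lemma sum_bits (n : ℕ) : ∀ a : ℕ, a < 2 ^ n →
    a = ∑ l : Fin n, 2 ^ (l : ℕ) * (if Nat.testBit a l then 1 else 0) := by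
  induction n with
  | zero => intro a ha; simp at ha; simp [ha]
  | succ n ih =>
    intro a ha
    rw [Fin.sum_univ_succ]
    have h1 := ih (a / 2) (by rw [pow_succ] at ha; omega)
    have h2 : ∑ l : Fin n, 2 ^ ((l.succ : Fin (n + 1)) : ℕ) *
        (if Nat.testBit a (l.succ : Fin (n + 1)) then 1 else 0) = 2 * (a / 2) := by
      conv_rhs => rw [h1, Finset.mul_sum]
      apply Finset.sum_congr rfl
      intro l _
      rw [Fin.val_succ, Nat.testBit_succ, pow_succ]
      ring
    rw [h2]
    have h3 : (if Nat.testBit a ((0 : Fin (n + 1)) : ℕ) then 1 else 0) = a % 2 := by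
      rw [Fin.val_zero, Nat.testBit_zero]
      rcases Nat.mod_two_eq_zero_or_one a with h | h <;> simp [h]
    rw [h3]
    simp
    omega

/-- if the special system is solvable, then one of the numbers `β s` is a natural number
less than `2 ^ n` -/
theorem of_solvable_spec (β : Fin n × Fin n × Fin n → K) (h : Solvable (dg n) (spec n β)) :
    ∃ (s : Fin n × Fin n × Fin n) (a : Fin (2 ^ n)), β s = ((a : ℕ) : K) := by
  · obtain ⟨z, hz⟩ := h
    have h1 : ∀ v, z v ^ 2 - z v = 0 := by
      intro v
      have h := hz (.inl (.inl v))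
      change ∑ m : Mon (Un n) 2, sp (μ₁ n v) c₁ m * m.val z = 0 at h
      rw [sum_sp, eq_one] at h
      exact h
    have h2 : ∀ s, (∑ j, z (.inl (s, j))) - 1 = 0 := by
      intro s
      have h := hz (.inl (.inr s))
      change ∑ m : Mon (Un n) 1, sp (μ₂ n s) (c₂ n) m * m.val z = 0 at h
      rw [sum_sp, eq_two] at h
      exact h
    have h3 : (∑ i, ∑ j, ∑ k, β (i, j, k) * (z (.inl (0, i)) * z (.inl (1, j)) *
        z (.inl (2, k)))) - ∑ l : Fin n, 2 ^ (l : ℕ) * z (.inr l) = 0 := by
      have h := hz (.inr ())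
      change ∑ m : Mon (Un n) 3, sp (μ₃ n) (c₃ n β) m * m.val z = 0 at h
      rw [sum_sp, eq_three] at h
      exact h
    obtain ⟨i, hi1, hi0⟩ := unit_vector (fun j => z (.inl (0, j))) (fun j => h1 _) (h2 0)
    obtain ⟨j, hj1, hj0⟩ := unit_vector (fun j => z (.inl (1, j))) (fun j => h1 _) (h2 1)
    obtain ⟨k, hk1, hk0⟩ := unit_vector (fun j => z (.inl (2, j))) (fun j => h1 _) (h2 2)
    have h4 : (∑ i, ∑ j, ∑ k, β (i, j, k) * (z (.inl (0, i)) * z (.inl (1, j)) *
        z (.inl (2, k)))) = β (i, j, k) := by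
      rw [Finset.sum_eq_single i, Finset.sum_eq_single j, Finset.sum_eq_single k]
      · rw [hi1, hj1, hk1]; ring
      · intro k' _ hk'
        rw [hk0 k' hk']; ring
      · intro h; exact absurd (Finset.mem_univ _) h
      · intro j' _ hj'
        apply Finset.sum_eq_zero
        intro k' _
        rw [hj0 j' hj']; ring
      · intro h; exact absurd (Finset.mem_univ _) h
      · intro i' _ hi'
        apply Finset.sum_eq_zero
        intro j' _
        apply Finset.sum_eq_zero
        intro k' _
        rw [hi0 i' hi']; ring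
      · intro h; exact absurd (Finset.mem_univ _) h
    rw [h4] at h3
    -- the bits
    classical
    obtain ⟨b, hb⟩ : ∃ b : Fin n → ℕ, ∀ l, b l ≤ 1 ∧ z (.inr l) = (b l : K) := by
      have : ∀ l : Fin n, ∃ b : ℕ, b ≤ 1 ∧ z (.inr l) = (b : K) := by
        intro l
        have h5 : z (.inr l) * (z (.inr l) - 1) = 0 := by linear_combination h1 (.inr l)
        rcases mul_eq_zero.mp h5 with h6 | h6
        · exact ⟨0, by norm_num, by rw [h6]; norm_num⟩
        · exact ⟨1, le_rfl, by rw [sub_eq_zero.mp h6]; norm_num⟩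
      choose b hb using this
      exact ⟨b, hb⟩
    have h7 : ∑ l : Fin n, 2 ^ (l : ℕ) * b l < 2 ^ n := by
      have h8 : ∑ l : Fin n, 2 ^ (l : ℕ) * b l ≤ ∑ l : Fin n, 2 ^ (l : ℕ) := by
        apply Finset.sum_le_sum
        intro l _
        calc 2 ^ (l : ℕ) * b l ≤ 2 ^ (l : ℕ) * 1 := Nat.mul_le_mul_left _ (hb l).1
          _ = 2 ^ (l : ℕ) := mul_one _
      have h9 : ∑ l : Fin n, 2 ^ (l : ℕ) < 2 ^ n := by
        rw [Fin.sum_univ_eq_sum_range (fun l => 2 ^ l) n]
        have := Nat.geomSum_lt (m := 2) (n := n) (s := Finset.range n) le_rfl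
          (fun k hk => Finset.mem_range.mp hk)
        exact this
      omega
    refine ⟨(i, j, k), ⟨∑ l : Fin n, 2 ^ (l : ℕ) * b l, h7⟩, ?_⟩
    rw [sub_eq_zero.mp h3]
    push_cast
    apply Finset.sum_congr rfl
    intro l _
    rw [(hb l).2]

/-- if one of the numbers `β s` is a natural number less than `2 ^ n`, then the special system has a
zero with coordinates `0` and `1` -/
theorem solvable01_spec (β : Fin n × Fin n × Fin n → K) (s : Fin n × Fin n × Fin n)
    (a : Fin (2 ^ n)) (ha : β s = ((a : ℕ) : K)) : Solvable01 (dg n) (spec n β) := by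
  · obtain ⟨i, j, k⟩ := s
    refine ⟨Sum.elim (fun x => if x.1 = 0 then (if x.2 = i then 1 else 0) else
      if x.1 = 1 then (if x.2 = j then 1 else 0) else (if x.2 = k then 1 else 0))
      (fun l => if Nat.testBit a l then 1 else 0), ?_, ?_⟩
    · rintro (x | l)
      · simp only [Sum.elim_inl]
        split_ifs <;> simp
      · simp only [Sum.elim_inr]
        split_ifs <;> simp
    rintro ((v | s) | u)
    · change ∑ m : Mon (Un n) 2, sp (μ₁ n v) c₁ m * m.val _ = 0
      rw [sum_sp, eq_one]
      rcases v with ⟨s, x⟩ | l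
      · simp only [Sum.elim_inl]
        split_ifs <;> ring
      · simp only [Sum.elim_inr]
        split_ifs <;> ring
    · change ∑ m : Mon (Un n) 1, sp (μ₂ n s) (c₂ n) m * m.val _ = 0
      rw [sum_sp, eq_two]
      simp only [Sum.elim_inl]
      split_ifs <;> simp
    · change ∑ m : Mon (Un n) 3, sp (μ₃ n) (c₃ n β) m * m.val _ = 0
      rw [sum_sp, eq_three]
      simp only [Sum.elim_inl, Sum.elim_inr, if_true]
      have h10 : (1 : Fin 3) ≠ 0 := by decide
      have h20 : (2 : Fin 3) ≠ 0 := by decide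
      have h21 : (2 : Fin 3) ≠ 1 := by decide
      simp only [if_neg h10, if_neg h20, if_neg h21]
      have hbits : ((a : ℕ) : K) = ∑ l : Fin n, 2 ^ (l : ℕ) *
          (if Nat.testBit a l then (1 : K) else 0) := by
        have h11 : (a : ℕ) = ∑ l : Fin n, 2 ^ (l : ℕ) * (if Nat.testBit a l then 1 else 0) :=
          sum_bits n a a.2
        conv_lhs => rw [h11]
        push_cast
        rfl
      rw [← hbits, ← ha]
      rw [Finset.sum_eq_single i, Finset.sum_eq_single j, Finset.sum_eq_single k]
      · simp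
      · intro k' _ hk'
        simp [hk']
      · intro h; exact absurd (Finset.mem_univ _) h
      · intro j' _ hj'
        apply Finset.sum_eq_zero
        intro k' _
        simp [hj']
      · intro h; exact absurd (Finset.mem_univ _) h
      · intro i' _ hi'
        apply Finset.sum_eq_zero
        intro j' _
        apply Finset.sum_eq_zero
        intro k' _
        simp [hi']
      · intro h; exact absurd (Finset.mem_univ _) h

/-- the size of the special systems -/
lemma card_Coef (n : ℕ) (hn : 1 ≤ n) : Fintype.card (Coef (Un n) (dg n)) ≤ 240 * n ^ 3 := by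
  have h1 : Fintype.card (Un n) = 4 * n := by
    simp [Un, Fintype.card_sum, Fintype.card_prod]; ring
  have h2 : Fintype.card (Coef (Un n) (dg n)) =
      ∑ i : Eq' n, Fintype.card (Mon (Un n) (dg n i)) := by
    unfold Coef
    exact Fintype.card_sigma
  rw [h2, Fintype.sum_sum_type, Fintype.sum_sum_type]
  have h3 : ∀ v : Un n, Fintype.card (Mon (Un n) (dg n (.inl (.inl v)))) ≤ (4 * n + 1) ^ 2 := by
    intro v
    have := card_Mon (Un n) 2
    rw [h1] at this
    exact this
  have h4 : ∀ s : Fin 3, Fintype.card (Mon (Un n) (dg n (.inl (.inr s)))) ≤ (4 * n + 1) ^ 1 := by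
    intro s
    have := card_Mon (Un n) 1
    rw [h1] at this
    exact this
  have h5 : ∀ u : Unit, Fintype.card (Mon (Un n) (dg n (.inr u))) ≤ (4 * n + 1) ^ 3 := by
    intro u
    have := card_Mon (Un n) 3
    rw [h1] at this
    exact this
  have h6 := Finset.sum_le_card_nsmul Finset.univ _ _ (fun v _ => h3 v)
  have h7 := Finset.sum_le_card_nsmul Finset.univ _ _ (fun v _ => h4 v)
  have h8 := Finset.sum_le_card_nsmul Finset.univ _ _ (fun v _ => h5 v)
  rw [Finset.card_univ, smul_eq_mul] at h6 h7 h8
  rw [h1] at h6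
  rw [Fintype.card_fin] at h7
  rw [Fintype.card_unit] at h8
  have h9 : 4 * n + 1 ≤ 5 * n := by omega
  have h10 : (4 * n + 1) ^ 2 ≤ (5 * n) ^ 2 := Nat.pow_le_pow_left h9 2
  have h11 : (4 * n + 1) ^ 3 ≤ (5 * n) ^ 3 := Nat.pow_le_pow_left h9 3
  have h12 : n ≤ n ^ 3 := Nat.le_self_pow (by norm_num) n
  have h13 : 4 * n * (4 * n + 1) ^ 2 ≤ 4 * n * (5 * n) ^ 2 := Nat.mul_le_mul_left _ h10
  rw [pow_one] at h7
  have h14 : 4 * n * (5 * n) ^ 2 = 100 * n ^ 3 := by ring
  have h15 : (5 * n) ^ 3 = 125 * n ^ 3 := by ring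
  omega

end Special

end Pool.Agent.H546R2.BS
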