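import Pool.Agent.H546R2.BS.B3
import Pool.Agent.H546R2.BS.B4

set_option autoImplicit false
set_option linter.unusedSectionVars false

/-!
# Assembly: the lower bound for the special systems, over the complex numbers
-/

namespace Pool.Agent.H546R2.BS

open MvPolynomial

/-! ### The special coefficients under homomorphisms -/

lemma map_spec {n : ℕ} {A B : Type} [CommRing A] [CommRing B] (f : A →+* B)
    (β : Fin n × Fin n × Fin n → A) (c : Coef (Un n) (dg n)) :
    f (spec n β c) = spec n (fun s => f (β s)) c := by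
  obtain ⟨i, m⟩ := c
  rcases i with (v | s) | u
  · simp only [spec, sp, map_sum]
    apply Finset.sum_congr rfl
    intro t _
    rcases t with _ | _ <;> split_ifs <;> simp [c₁]
  · simp only [spec, sp, map_sum]
    apply Finset.sum_congr rfl
    intro t _
    rcases t with _ | _ <;> split_ifs <;> simp [c₂]
  · simp only [spec, sp, map_sum]
    apply Finset.sum_congr rfl
    intro t _
    rcases t with t | t
    · split_ifs <;> simp [c₃]
    · split_ifs
      · simp only [c₃, map_neg, map_pow]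
        rw [map_ofNat f 2]
      · simp

lemma deg_const_two_pow {ι : Type} (l : ℕ) : (-(2 ^ l) : MvPolynomial ι ℝ).totalDegree ≤ 1 := by
  have : (-(2 ^ l) : MvPolynomial ι ℝ) = C (-(2 ^ l)) := by
    rw [map_neg, map_pow]; rfl
  rw [this, totalDegree_C]
  exact Nat.zero_le _

lemma deg_neg_one {ι : Type} : (-1 : MvPolynomial ι ℝ).totalDegree ≤ 1 := by
  rw [totalDegree_neg, totalDegree_one]; exact Nat.zero_le _

/-- the special coefficients are affine -/
lemma deg_spec {n : ℕ} {ι : Type} (β : Fin n × Fin n × Fin n → MvPolynomial ι ℝ)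
    (hβ : ∀ s, (β s).totalDegree ≤ 1) (c : Coef (Un n) (dg n)) :
    (spec n β c).totalDegree ≤ 1 := by
  obtain ⟨i, m⟩ := c
  rcases i with (v | s) | u
  · simp only [spec, sp]
    apply totalDegree_finsetSum_le
    intro t _
    split_ifs
    · rcases t with _ | _
      · simp only [c₁]; exact deg_neg_one
      · simp only [c₁]; rw [totalDegree_one]; exact Nat.zero_le _
    · rw [totalDegree_zero]; exact Nat.zero_le _
  · simp only [spec, sp]
    apply totalDegree_finsetSum_le
    intro t _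
    split_ifs
    · rcases t with _ | _
      · simp only [c₂]; exact deg_neg_one
      · simp only [c₂]; rw [totalDegree_one]; exact Nat.zero_le _
    · rw [totalDegree_zero]; exact Nat.zero_le _
  · simp only [spec, sp]
    apply totalDegree_finsetSum_le
    intro t _
    split_ifs
    · rcases t with t | t
      · simp only [c₃]; exact hβ t
      · simp only [c₃]; exact deg_const_two_pow _
    · rw [totalDegree_zero]; exact Nat.zero_le _

/-! ### The points -/

/-- the parameters -/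
abbrev Pr (n : ℕ) : Type := Fin n × Fin n × Fin n

/-- the linear forms -/
noncomputable def Lf (n : ℕ) (y : Pr n × Fin (2 ^ n)) (x : Pr n → ℝ) : ℝ := x y.1 - ((y.2 : ℕ) : ℝ)

/-- the points with all coordinates half integers -/
noncomputable def pt (n : ℕ) (m : Pr n → Fin (2 ^ n)) : Pr n → ℝ := fun s => ((m s : ℕ) : ℝ) + 1 / 2

lemma pt_injective (n : ℕ) : Function.Injective (pt n) := by
  intro m m' h
  funext s
  have h1 := congrFun h s
  simp only [pt, add_left_inj, Nat.cast_inj] at h1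
  exact Fin.ext h1

/-- the points -/
noncomputable def pts (n : ℕ) : Finset (Pr n → ℝ) := Finset.univ.map ⟨pt n, pt_injective n⟩

lemma card_pts (n : ℕ) : (pts n).card = 2 ^ (n ^ 4) := by
  unfold pts
  rw [Finset.card_map, Finset.card_univ, Fintype.card_fun, Fintype.card_fin, Fintype.card_prod,
    Fintype.card_prod, Fintype.card_fin, ← pow_mul]
  congr 1
  ring

lemma pts_sep (n : ℕ) : ∀ p ∈ pts n, ∀ q ∈ pts n, p ≠ q → ∃ i, Lf n i p * Lf n i q < 0 := by
  intro p hp q hq hpq
  obtain ⟨m, _, rfl⟩ := Finset.mem_map.mp hp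
  obtain ⟨m', _, rfl⟩ := Finset.mem_map.mp hq
  have hmm : m ≠ m' := fun h => hpq (by rw [h])
  obtain ⟨s, hs⟩ := Function.ne_iff.mp hmm
  have key : ∀ a b : Fin (2 ^ n), (a : ℕ) < b →
      (((a : ℕ) : ℝ) + 1 / 2 - ((b : ℕ) : ℝ)) * (((b : ℕ) : ℝ) + 1 / 2 - ((b : ℕ) : ℝ)) < 0 := by
    intro a b hab
    have h1 : ((a : ℕ) : ℝ) + 1 ≤ ((b : ℕ) : ℝ) := by exact_mod_cast hab
    apply mul_neg_of_neg_of_pos
    · linarith
    · linarith
  rcases lt_or_gt_of_ne (fun h => hs (Fin.ext h) : (m s : ℕ) ≠ m' s) with h | h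
  · exact ⟨(s, m' s), key _ _ h⟩
  · exact ⟨(s, m s), by rw [mul_comm]; exact key _ _ h⟩

/-- half integers are not integers -/
lemma half_ne (a b : ℕ) : ((a : ℝ) + 1 / 2) ≠ (b : ℝ) := by
  intro h
  have h1 : (2 * a + 1 : ℝ) = 2 * b := by linarith
  have h2 : 2 * a + 1 = 2 * b := by exact_mod_cast h1
  omega

lemma half_ne_complex (a b : ℕ) : ((((a : ℝ) + 1 / 2 : ℝ)) : ℂ) ≠ (b : ℂ) := by
  intro h
  apply half_ne a b
  exact_mod_cast h

/-! ### Numerics -/

lemma numeric {n d g : ℕ} (h : 2 ^ (n ^ 4) ≤ 2 ^ d * 5 ^ (n ^ 3 + 2 * g + 4 * d)) :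
    3 * n ^ 4 ≤ 31 * d + 14 * g + 7 * n ^ 3 := by
  have h1 : (2 ^ (n ^ 4)) ^ 3 ≤ (2 ^ d * 5 ^ (n ^ 3 + 2 * g + 4 * d)) ^ 3 := Nat.pow_le_pow_left h 3
  have h2 : (2 ^ d * 5 ^ (n ^ 3 + 2 * g + 4 * d)) ^ 3 ≤
      2 ^ (31 * d + 14 * g + 7 * n ^ 3) := by
    calc (2 ^ d * 5 ^ (n ^ 3 + 2 * g + 4 * d)) ^ 3
        = 2 ^ (3 * d) * (5 ^ 3) ^ (n ^ 3 + 2 * g + 4 * d) := by
          rw [mul_pow, ← pow_mul, ← pow_mul, ← pow_mul]; congr 1 <;> ring_nf
      _ ≤ 2 ^ (3 * d) * (2 ^ 7) ^ (n ^ 3 + 2 * g + 4 * d) :=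
          Nat.mul_le_mul_left _ (Nat.pow_le_pow_left (by norm_num) _)
      _ = 2 ^ (31 * d + 14 * g + 7 * n ^ 3) := by
          rw [← pow_mul, ← pow_add]; congr 1; ring
  rw [← pow_mul] at h1
  have h3 := (Nat.pow_le_pow_iff_right (by norm_num : 1 < 2)).mp (h1.trans h2)
  omega

/-! ### The lower bound over the complex numbers -/

/-- acceptance with guesses -/
def Tree.NAcc (T : Tree ℂ) (g : ℕ) (v : List ℂ) : Prop :=
  ∃ w : Fin g → ℂ, T.AccEq (v ++ List.ofFn w)

theorem lower_spec {n N g : ℕ} (e : Fin N → Coef (Un n) (dg n)) (T : Tree ℂ)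
    (hT₀ : ∀ a : Coef (Un n) (dg n) → ℂ, Solvable01 (dg n) a →
      ¬ T.NAcc g (List.ofFn fun i => a (e i)))
    (hT₁ : ∀ a : Coef (Un n) (dg n) → ℂ, ¬ Solvable (dg n) a →
      T.NAcc g (List.ofFn fun i => a (e i))) :
    3 * n ^ 4 ≤ 31 * T.depth + 14 * g + 7 * n ^ 3 := by
  classical
  -- the inputs as pairs of affine polynomials
  let τ : Type := Fin g ⊕ Fin g
  let β : Pr n → MvPolynomial (Pr n ⊕ τ) ℝ := fun s => X (Sum.inl s)
  let V : List (MvPolynomial (Pr n ⊕ τ) ℝ × MvPolynomial (Pr n ⊕ τ) ℝ) :=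
    List.ofFn (fun i => (spec n β (e i), 0)) ++
      List.ofFn (fun j : Fin g => (X (Sum.inr (Sum.inl j)), X (Sum.inr (Sum.inr j))))
  have hev : ∀ z : Pr n ⊕ τ → ℝ, ev z V =
      List.ofFn (fun i => spec n (fun s => ((z (Sum.inl s) : ℝ) : ℂ)) (e i)) ++
        List.ofFn (fun j : Fin g => (⟨z (Sum.inr (Sum.inl j)), z (Sum.inr (Sum.inr j))⟩ : ℂ)) := by
    intro z
    rw [ev_append]
    congr 1
    · unfold ev
      rw [List.map_ofFn]
      congr 1
      funext i
      simp only [Function.comp_apply, cx, map_zero]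
      have h1 := map_spec (Complex.ofRealHom.comp (eval z)) β (e i)
      simp only [RingHom.comp_apply, β, eval_X] at h1
      have h2 : ∀ s : ℝ, Complex.ofRealHom s = (s : ℂ) := fun s => rfl
      simp only [h2] at h1
      rw [← h1]
      rfl
    · unfold ev
      rw [List.map_ofFn]
      congr 1
      funext j
      simp only [Function.comp_apply, cx, eval_X]
  have hdegV : ∀ p ∈ V, p.1.totalDegree ≤ 1 ∧ p.2.totalDegree ≤ 1 := by
    intro p hp
    rcases List.mem_append.mp hp with hp | hp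
    · obtain ⟨i, rfl⟩ := (List.mem_ofFn' _ _).mp hp
      refine ⟨deg_spec _ (fun s => ?_) _, ?_⟩
      · simp only [β, totalDegree_X]; exact le_rfl
      · simp
    · obtain ⟨i, rfl⟩ := (List.mem_ofFn' _ _).mp hp
      refine ⟨?_, ?_⟩ <;> simp only [totalDegree_X] <;> exact le_rfl
  have hmain := tree_bd (σ := Pr n) (Lf n) (by
      intro i
      unfold Lf
      fun_prop) T T.depth le_rfl τ [] V (by simp) hdegV ?_ (pts n) ?_ (pts_sep n)
  · rw [card_pts] at hmain
    have hσ : Fintype.card (Pr n) = n ^ 3 := by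
      rw [Fintype.card_prod, Fintype.card_prod, Fintype.card_fin]; ring
    have hτ : Fintype.card τ = 2 * g := by
      simp only [τ, Fintype.card_sum, Fintype.card_fin]; ring
    rw [hσ, hτ] at hmain
    exact numeric hmain
  · -- acceptance implies that no linear form vanishes
    intro z _ hacc i hi
    rw [hev] at hacc
    have h1 : T.NAcc g (List.ofFn fun i => spec n (fun s => ((z (Sum.inl s) : ℝ) : ℂ)) (e i)) :=
      ⟨_, hacc⟩
    refine hT₀ _ (solvable01_spec _ i.1 i.2 ?_) h1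
    simp only [Lf, Function.comp_apply] at hi
    have h2 : z (Sum.inl i.1) = ((i.2 : ℕ) : ℝ) := sub_eq_zero.mp hi
    rw [h2]
    simp
  · intro p hp
    obtain ⟨m, _, rfl⟩ := Finset.mem_map.mp hp
    have h1 : ¬ Solvable (dg n) (spec n (fun s => ((pt n m s : ℝ) : ℂ))) := by
      intro h0
      obtain ⟨s, a, h⟩ := of_solvable_spec _ h0
      exact half_ne_complex _ _ h
    obtain ⟨w, hw⟩ := hT₁ _ h1
    refine ⟨Sum.elim (fun j => (w j).re) (fun j => (w j).im), by simp, ?_⟩
    rw [hev]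
    exact hw

end Pool.Agent.H546R2.BS
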