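import Pool.Agent.H546R2.BS.B4

set_option autoImplicit false
set_option linter.unusedSectionVars false

/-!
# Renaming unknowns and equations
-/

namespace Pool.Agent.H546R2.BS

section

variable {ι ι' κ κ' : Type} [Fintype ι] [DecidableEq ι] [Fintype ι'] [DecidableEq ι']

/-- renaming the unknowns of a monomial -/
def monEquiv (e : ι ≃ ι') (d d' : ℕ) (h : d = d') : Mon ι d ≃ Mon ι' d' where
  toFun m := ⟨fun j => Fin.cast (by rw [h]) (m.1 (e.symm j)), by
    have h1 : ∑ j : ι', (m.1 (e.symm j) : ℕ) = ∑ j : ι, (m.1 j : ℕ) :=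
      Equiv.sum_comp e.symm (fun j => (m.1 j : ℕ))
    simp only [Fin.val_cast]
    rw [h1, ← h]
    exact m.2⟩
  invFun m := ⟨fun j => Fin.cast (by rw [h]) (m.1 (e j)), by
    have h1 : ∑ j : ι, (m.1 (e j) : ℕ) = ∑ j : ι', (m.1 j : ℕ) :=
      Equiv.sum_comp e (fun j => (m.1 j : ℕ))
    simp only [Fin.val_cast]
    rw [h1, h]
    exact m.2⟩
  left_inv m := by
    apply Subtype.ext
    funext j
    simp
  right_inv m := by
    apply Subtype.ext
    funext j
    simp

lemma monEquiv_val (e : ι ≃ ι') (d d' : ℕ) (h : d = d') (m : Mon ι d) {K : Type} [CommRing K]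
    (z : ι' → K) : (monEquiv e d d' h m).val z = m.val (z ∘ e) := by
  have hm : ∀ j, (((monEquiv e d d' h m).1 (e j) : Fin (d' + 1)) : ℕ) = (m.1 j : ℕ) := by
    intro j
    change ((m.1 (e.symm (e j)) : Fin (d + 1)) : ℕ) = _
    rw [Equiv.symm_apply_apply]
  unfold Mon.val
  rw [← Equiv.prod_comp e]
  apply Finset.prod_congr rfl
  intro j _
  rw [hm]
  rfl

/-- renaming the unknowns and the equations of a system -/
def coefEquiv (e : ι ≃ ι') (f : κ ≃ κ') (deg : κ → ℕ) (deg' : κ' → ℕ)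
    (h : ∀ i, deg i = deg' (f i)) : Coef ι deg ≃ Coef ι' deg' :=
  Equiv.sigmaCongr f (fun i => monEquiv e (deg i) (deg' (f i)) (h i))

lemma rename_key (e : ι ≃ ι') (f : κ ≃ κ') (deg : κ → ℕ) (deg' : κ' → ℕ)
    (h : ∀ i, deg i = deg' (f i)) {K : Type} [CommRing K] (a : Coef ι' deg' → K)
    (z : ι' → K) (i : κ) : ∑ m : Mon ι (deg i),
      (a ∘ coefEquiv e f deg deg' h) ⟨i, m⟩ * m.val (z ∘ e) =
        ∑ m : Mon ι' (deg' (f i)), a ⟨f i, m⟩ * m.val z := by
  rw [← Equiv.sum_comp (monEquiv e (deg i) (deg' (f i)) (h i))]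
  apply Finset.sum_congr rfl
  intro m _
  rw [monEquiv_val]
  rfl

theorem solvable01_rename (e : ι ≃ ι') (f : κ ≃ κ') (deg : κ → ℕ) (deg' : κ' → ℕ)
    (h : ∀ i, deg i = deg' (f i)) {K : Type} [CommRing K] (a : Coef ι' deg' → K) :
    Solvable01 deg (a ∘ coefEquiv e f deg deg' h) ↔ Solvable01 deg' a := by
  have key := rename_key e f deg deg' h a
  constructor
  · rintro ⟨z, hz1, hz⟩
    refine ⟨z ∘ e.symm, fun j => hz1 (e.symm j), ?_⟩
    intro i'
    obtain ⟨i, rfl⟩ := f.surjective i'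
    rw [← key]
    have h1 : (z ∘ e.symm) ∘ e = z := by
      funext j
      simp
    rw [h1]
    exact hz i
  · rintro ⟨z, hz1, hz⟩
    exact ⟨z ∘ e, fun j => hz1 (e j), fun i => by rw [key]; exact hz (f i)⟩

theorem solvable_rename (e : ι ≃ ι') (f : κ ≃ κ') (deg : κ → ℕ) (deg' : κ' → ℕ)
    (h : ∀ i, deg i = deg' (f i)) {K : Type} [CommRing K] (a : Coef ι' deg' → K) :
    Solvable deg (a ∘ coefEquiv e f deg deg' h) ↔ Solvable deg' a := by
  have key := rename_key e f deg deg' h a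
  constructor
  · rintro ⟨z, hz⟩
    refine ⟨z ∘ e.symm, ?_⟩
    intro i'
    obtain ⟨i, rfl⟩ := f.surjective i'
    rw [← key]
    have h1 : (z ∘ e.symm) ∘ e = z := by
      funext j
      simp
    rw [h1]
    exact hz i
  · rintro ⟨z, hz⟩
    exact ⟨z ∘ e, fun i => by rw [key]; exact hz (f i)⟩

end

end Pool.Agent.H546R2.BS
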