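import Pool.Agent.H546R2.BS.B2

set_option autoImplicit false
set_option linter.unusedSectionVars false

/-!
# Machines and their unrolling into trees
-/

namespace Pool.Agent.H546R2.BS

/-- The instructions at the nodes of a machine with constants from `K` and set of nodes `Q`. -/
inductive Instr (K Q : Type) : Type
  /-- entry `i` := entry `j` ∘ entry `k` -/
  | op (o : Op) (i j k : ℤ) (next : Q)
  /-- entry `i` := `c` * entry `j` -/
  | scale (c : K) (i j : ℤ) (next : Q)
  /-- entry `i` := `c` -/
  | const (c : K) (i : ℤ) (next : Q)
  /-- entry `i` := entry `j` -/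
  | copy (i j : ℤ) (next : Q)
  /-- the sequence is shifted by `s` places -/
  | shift (s : ℤ) (next : Q)
  /-- branch on entry `i` -/
  | test (i : ℤ) (yes no : Q)
  /-- output -/
  | halt (answer : Bool)

/-- A machine: a set of nodes, an initial node and an instruction for every node. -/
structure Machine (K : Type) where
  /-- nodes -/
  Q : Type
  /-- initial node -/
  start : Q
  /-- program -/
  prog : Q → Instr K Q

/-- The answer of the machine started at node `q` on the sequence `x`, if an output node is
reached after traversing at most `t` nodes (the output node included).  `tst x` is the condition for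
following the edge marked yes. -/
noncomputable def Machine.run {K : Type} [Field K] (tst : K → Prop) (M : Machine K) :
    ℕ → M.Q → (ℤ → K) → Option Bool
  | 0, _, _ => none
  | t + 1, q, x => by
      classical
      exact match M.prog q with
      | .op o i j k q' => M.run tst t q' (Function.update x i (o.eval (x j) (x k)))
      | .scale c i j q' => M.run tst t q' (Function.update x i (c * x j))
      | .const c i q' => M.run tst t q' (Function.update x i c)
      | .copy i j q' => M.run tst t q' (Function.update x i (x j))
      | .shift s q' => M.run tst t q' (fun i => x (i + s))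
      | .test i yes no => if tst (x i) then M.run tst t yes x else M.run tst t no x
      | .halt b => some b

/-- The input `l` is placed in the entries `1, 2, ..., l.length`, the other entries are `0`. -/
def place {K : Type} [Zero K] (l : List K) (i : ℤ) : K :=
  if 1 ≤ i then l.getD (i - 1).toNat 0 else 0

/-- The answer of the machine on the input `l`, if it halts after traversing at most `t` nodes. -/
noncomputable def Machine.answer {K : Type} [Field K] (tst : K → Prop) (M : Machine K) (t : ℕ)
    (l : List K) : Option Bool := M.run tst t M.start (place l)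

/-- Acceptance by a tree, with general tests. -/
def Tree.Acc {K : Type} [Field K] (tst : K → Prop) : Tree K → List K → Prop
  | .leaf b, _ => b = true
  | .const c T, v => T.Acc tst (v ++ [c])
  | .op o i j T, v => T.Acc tst (v ++ [o.eval (v.getD i 0) (v.getD j 0)])
  | .test i T T', v => (tst (v.getD i 0) ∧ T.Acc tst v) ∨ (¬ tst (v.getD i 0) ∧ T'.Acc tst v)

lemma accEq_iff {K : Type} [Field K] (T : Tree K) : ∀ v : List K,
    T.AccEq v ↔ T.Acc (fun x => x = 0) v := by
  induction T with
  | leaf b => intro v; simp only [Tree.AccEq, Tree.Acc]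
  | const c T ih => intro v; simp only [Tree.AccEq, Tree.Acc]; exact ih _
  | op o i j T ih => intro v; simp only [Tree.AccEq, Tree.Acc]; exact ih _
  | test i T T' ih ih' => intro v; simp only [Tree.AccEq, Tree.Acc, ih, ih']

section

variable {K : Type} [Field K] (tst : K → Prop) (M : Machine K)

/-- the value of an entry: an index into the list of values, or a known constant -/
def val (v : List K) : ℕ ⊕ K → K
  | .inl n => v.getD n 0
  | .inr c => c

/-- all indices are smaller than the length -/
def Good (ℓ : ℕ) (ρ : ℤ → ℕ ⊕ K) : Prop := ∀ i n, ρ i = .inl n → n < ℓ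

/-- making a value available -/
def fetch : ℕ ⊕ K → ℕ → (ℕ → ℕ → Tree K) → Tree K
  | .inl n, ℓ, k => k n ℓ
  | .inr c, ℓ, k => .const c (k ℓ (ℓ + 1))

/-- the tree which simulates the machine and accepts if the answer is `b₀` -/
def unroll (b₀ : Bool) : ℕ → M.Q → (ℤ → ℕ ⊕ K) → ℕ → Tree K
  | 0, _, _, _ => .leaf false
  | t + 1, q, ρ, ℓ =>
      match M.prog q with
      | .op o i j k q' => fetch (ρ j) ℓ fun a ℓ₁ => fetch (ρ k) ℓ₁ fun b ℓ₂ =>
          .op o a b (unroll b₀ t q' (Function.update ρ i (.inl ℓ₂)) (ℓ₂ + 1))
      | .scale c i j q' => fetch (.inr c) ℓ fun a ℓ₁ => fetch (ρ j) ℓ₁ fun b ℓ₂ =>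
          .op .mul a b (unroll b₀ t q' (Function.update ρ i (.inl ℓ₂)) (ℓ₂ + 1))
      | .const c i q' => unroll b₀ t q' (Function.update ρ i (.inr c)) ℓ
      | .copy i j q' => unroll b₀ t q' (Function.update ρ i (ρ j)) ℓ
      | .shift s q' => unroll b₀ t q' (fun i => ρ (i + s)) ℓ
      | .test i yes no => fetch (ρ i) ℓ fun a ℓ₁ =>
          .test a (unroll b₀ t yes ρ ℓ₁) (unroll b₀ t no ρ ℓ₁)
      | .halt b => .leaf (b == b₀)

lemma fetch_depth (x : ℕ ⊕ K) (ℓ : ℕ) (k : ℕ → ℕ → Tree K) (D : ℕ)
    (h : ∀ a ℓ', (k a ℓ').depth ≤ D) : (fetch x ℓ k).depth ≤ D + 1 := by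
  rcases x with n | c
  · exact (h n ℓ).trans (Nat.le_succ _)
  · simp only [fetch, Tree.depth]
    exact Nat.succ_le_succ (h _ _)

lemma unroll_depth (b₀ : Bool) (t : ℕ) : ∀ (q : M.Q) (ρ : ℤ → ℕ ⊕ K) (ℓ : ℕ),
    (unroll M b₀ t q ρ ℓ).depth ≤ 3 * t := by
  induction t with
  | zero => intro q ρ ℓ; simp [unroll, Tree.depth]
  | succ t ih =>
    intro q ρ ℓ
    rw [unroll]
    cases M.prog q with
    | op o i j k q' =>
      simp only
      refine (fetch_depth _ _ _ (3 * t + 2) ?_).trans (by omega)
      intro a ℓ₁
      refine (fetch_depth _ _ _ (3 * t + 1) ?_).trans (by omega)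
      intro b ℓ₂
      simp only [Tree.depth]
      exact Nat.succ_le_succ (ih _ _ _)
    | scale c i j q' =>
      simp only
      refine (fetch_depth _ _ _ (3 * t + 2) ?_).trans (by omega)
      intro a ℓ₁
      refine (fetch_depth _ _ _ (3 * t + 1) ?_).trans (by omega)
      intro b ℓ₂
      simp only [Tree.depth]
      exact Nat.succ_le_succ (ih _ _ _)
    | const c i q' => exact (ih _ _ _).trans (by omega)
    | copy i j q' => exact (ih _ _ _).trans (by omega)
    | shift s q' => exact (ih _ _ _).trans (by omega)
    | test i yes no =>
      simp only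
      refine (fetch_depth _ _ _ (3 * t + 1) ?_).trans (by omega)
      intro a ℓ₁
      simp only [Tree.depth]
      exact Nat.succ_le_succ (max_le (ih _ _ _) (ih _ _ _))
    | halt b => simp [Tree.depth]

lemma val_append (v w : List K) {ρ : ℤ → ℕ ⊕ K} (hρ : Good v.length ρ) (i : ℤ) :
    val (v ++ w) (ρ i) = val v (ρ i) := by
  cases h : ρ i with
  | inl n => simp only [val]; rw [List.getD_append _ _ _ _ (hρ i n h)]
  | inr c => rfl

lemma fetch_acc (v : List K) (x : ℕ ⊕ K) (hx : ∀ n, x = .inl n → n < v.length)
    (k : ℕ → ℕ → Tree K) :
    ∃ (w : List K) (a : ℕ), a < (v ++ w).length ∧ (v ++ w).getD a 0 = val v x ∧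
      ((fetch x v.length k).Acc tst v ↔ (k a (v ++ w).length).Acc tst (v ++ w)) := by
  rcases x with n | c
  · refine ⟨[], n, ?_, ?_, ?_⟩
    · simpa using hx n rfl
    · simp [val]
    · simp [fetch]
  · refine ⟨[c], v.length, by simp, by simp [val], ?_⟩
    simp [fetch, Tree.Acc]

lemma good_mono {ℓ ℓ' : ℕ} {ρ : ℤ → ℕ ⊕ K} (h : Good ℓ ρ) (hl : ℓ ≤ ℓ') : Good ℓ' ρ :=
  fun i n hi => (h i n hi).trans_le hl

lemma good_update {ℓ : ℕ} {ρ : ℤ → ℕ ⊕ K} (h : Good ℓ ρ) (i : ℤ) (x : ℕ ⊕ K)
    (hx : ∀ n, x = .inl n → n < ℓ) : Good ℓ (Function.update ρ i x) := by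
  intro j n hj
  by_cases hij : j = i
  · subst hij
    rw [Function.update_self] at hj
    exact hx n hj
  · rw [Function.update_of_ne hij] at hj
    exact h j n hj

/-- the simulation is correct -/
theorem unroll_acc (b₀ : Bool) (t : ℕ) : ∀ (q : M.Q) (ρ : ℤ → ℕ ⊕ K) (v : List K),
    Good v.length ρ → ((unroll M b₀ t q ρ v.length).Acc tst v ↔
      M.run tst t q (fun i => val v (ρ i)) = some b₀) := by
  induction t with
  | zero => intro q ρ v _; simp [unroll, Tree.Acc, Machine.run]
  | succ t ih =>
    intro q ρ v hρ
    rw [unroll, Machine.run]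
    cases hq : M.prog q with
    | op o i j k q' =>
      simp only
      obtain ⟨w, a, ha1, ha2, ha3⟩ := fetch_acc tst v (ρ j) (fun n h => hρ j n h)
        (fun a ℓ₁ => fetch (ρ k) ℓ₁ fun b ℓ₂ =>
          .op o a b (unroll M b₀ t q' (Function.update ρ i (.inl ℓ₂)) (ℓ₂ + 1)))
      rw [ha3]
      have hρ1 : Good (v ++ w).length ρ := good_mono hρ (by simp)
      obtain ⟨w', b, hb1, hb2, hb3⟩ := fetch_acc tst (v ++ w) (ρ k) (fun n h => hρ1 k n h)
        (fun b ℓ₂ => .op o a b (unroll M b₀ t q' (Function.update ρ i (.inl ℓ₂)) (ℓ₂ + 1)))
      rw [hb3]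
      have hρ2 : Good (v ++ w ++ w').length ρ := good_mono hρ1 (by simp)
      simp only [Tree.Acc]
      rw [List.getD_append _ _ _ _ ha1, ha2, hb2, val_append _ _ hρ]
      set r := o.eval (val v (ρ j)) (val v (ρ k)) with hr
      have hlen : (v ++ w ++ w').length + 1 = (v ++ w ++ w' ++ [r]).length := by
        rw [List.length_append (as := v ++ w ++ w')]; rfl
      rw [hlen, ih]
      · have : (fun l => val (v ++ w ++ w' ++ [r])
            (Function.update ρ i (.inl (v ++ w ++ w').length) l)) =
            Function.update (fun l => val v (ρ l)) i r := by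
          funext l
          by_cases hl : l = i
          · subst hl
            rw [Function.update_self, Function.update_self]
            simp only [val]
            rw [List.getD_append_right _ _ _ _ (le_refl _)]
            simp
          · rw [Function.update_of_ne hl, Function.update_of_ne hl, val_append _ _ hρ2,
              val_append _ _ hρ1, val_append _ _ hρ]
        rw [this]
      · apply good_update
        · exact good_mono hρ2 (by simp)
        · intro n hn
          have : n = (v ++ w ++ w').length := (Sum.inl.inj hn).symm
          rw [this]; simp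
    | scale c i j q' =>
      simp only
      obtain ⟨w, a, ha1, ha2, ha3⟩ := fetch_acc tst v (.inr c) (fun n h => by cases h)
        (fun a ℓ₁ => fetch (ρ j) ℓ₁ fun b ℓ₂ =>
          .op .mul a b (unroll M b₀ t q' (Function.update ρ i (.inl ℓ₂)) (ℓ₂ + 1)))
      rw [ha3]
      have hρ1 : Good (v ++ w).length ρ := good_mono hρ (by simp)
      obtain ⟨w', b, hb1, hb2, hb3⟩ := fetch_acc tst (v ++ w) (ρ j) (fun n h => hρ1 j n h)
        (fun b ℓ₂ => .op .mul a b (unroll M b₀ t q' (Function.update ρ i (.inl ℓ₂)) (ℓ₂ + 1)))
      rw [hb3]
      have hρ2 : Good (v ++ w ++ w').length ρ := good_mono hρ1 (by simp)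
      simp only [Tree.Acc]
      rw [List.getD_append _ _ _ _ ha1, ha2, hb2, val_append _ _ hρ]
      have hr : Op.eval .mul (val v (.inr c)) (val v (ρ j)) = c * val v (ρ j) := rfl
      rw [hr]
      set r := c * val v (ρ j) with hr
      have hlen : (v ++ w ++ w').length + 1 = (v ++ w ++ w' ++ [r]).length := by
        rw [List.length_append (as := v ++ w ++ w')]; rfl
      rw [hlen, ih]
      · have : (fun l => val (v ++ w ++ w' ++ [r])
            (Function.update ρ i (.inl (v ++ w ++ w').length) l)) =
            Function.update (fun l => val v (ρ l)) i r := by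
          funext l
          by_cases hl : l = i
          · subst hl
            rw [Function.update_self, Function.update_self]
            simp only [val]
            rw [List.getD_append_right _ _ _ _ (le_refl _)]
            simp
          · rw [Function.update_of_ne hl, Function.update_of_ne hl, val_append _ _ hρ2,
              val_append _ _ hρ1, val_append _ _ hρ]
        rw [this]
      · apply good_update
        · exact good_mono hρ2 (by simp)
        · intro n hn
          have : n = (v ++ w ++ w').length := (Sum.inl.inj hn).symm
          rw [this]; simp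
    | const c i q' =>
      simp only
      rw [ih]
      · have : (fun l => val v (Function.update ρ i (.inr c) l)) =
            Function.update (fun l => val v (ρ l)) i c := by
          funext l
          by_cases hl : l = i
          · subst hl
            rw [Function.update_self, Function.update_self]
            rfl
          · rw [Function.update_of_ne hl, Function.update_of_ne hl]
        rw [this]
      · exact good_update hρ _ _ (fun n h => by cases h)
    | copy i j q' =>
      simp only
      rw [ih]
      · have : (fun l => val v (Function.update ρ i (ρ j) l)) =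
            Function.update (fun l => val v (ρ l)) i (val v (ρ j)) := by
          funext l
          by_cases hl : l = i
          · subst hl
            rw [Function.update_self, Function.update_self]
          · rw [Function.update_of_ne hl, Function.update_of_ne hl]
        rw [this]
      · exact good_update hρ _ _ (fun n h => hρ j n h)
    | shift s q' =>
      simp only
      rw [ih]
      exact fun i n h => hρ _ n h
    | test i yes no =>
      simp only
      obtain ⟨w, a, ha1, ha2, ha3⟩ := fetch_acc tst v (ρ i) (fun n h => hρ i n h)
        (fun a ℓ₁ => .test a (unroll M b₀ t yes ρ ℓ₁) (unroll M b₀ t no ρ ℓ₁))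
      rw [ha3]
      have hρ1 : Good (v ++ w).length ρ := good_mono hρ (by simp)
      simp only [Tree.Acc]
      rw [ih _ _ _ hρ1, ih _ _ _ hρ1, ha2]
      have : (fun l => val (v ++ w) (ρ l)) = fun l => val v (ρ l) := by
        funext l
        rw [val_append _ _ hρ]
      rw [this]
      split_ifs with h
      · simp [h]
      · simp [h]
    | halt b =>
      simp [Tree.Acc]

/-- the initial description: a list of known constants followed by the inputs -/
def init (hdr : List K) (ℓ : ℕ) (i : ℤ) : ℕ ⊕ K :=
  if 1 ≤ i then
    (if (i - 1).toNat < hdr.length then .inr (hdr.getD (i - 1).toNat 0)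
      else if (i - 1).toNat - hdr.length < ℓ then .inl ((i - 1).toNat - hdr.length) else .inr 0)
    else .inr 0

/-- Machines are simulated by trees: the part `hdr` of the input is fixed. -/
theorem exists_tree (hdr : List K) (ℓ t : ℕ) (b₀ : Bool) :
    ∃ T : Tree K, T.depth ≤ 3 * t ∧ ∀ v : List K, v.length = ℓ →
      (T.Acc tst v ↔ M.answer tst t (hdr ++ v) = some b₀) := by
  refine ⟨unroll M b₀ t M.start (init hdr ℓ) ℓ, unroll_depth M b₀ t _ _ _, ?_⟩
  intro v hv
  subst hv
  rw [unroll_acc]
  · have : (fun i => val v (init hdr v.length i)) = place (hdr ++ v) := by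
      funext i
      unfold init place
      split_ifs with h1 h2 h3
      · simp only [val]
        rw [List.getD_append _ _ _ _ h2]
      · simp only [val]
        rw [List.getD_append_right _ _ _ _ (by omega)]
      · simp only [val]
        rw [List.getD_eq_default]
        simp only [List.length_append]
        omega
      · rfl
    rw [this]
    rfl
  · intro i n h
    unfold init at h
    split_ifs at h with h1 h2 h3
    have : n = (i - 1).toNat - hdr.length := (Sum.inl.inj h).symm
    rw [this]; exact h3

end

end Pool.Agent.H546R2.BS
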