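import Pool.Agent.H546R2.BS.B4
import Pool.Agent.H546R2.BS.B7

set_option autoImplicit false
set_option linter.unusedSectionVars false

/-!
# The upper bound: solvability by nondeterministic machines in linear time
-/

namespace Pool.Agent.H546R2.BS

section

variable {K : Type} [Field K] (tst : K → Prop)

/-- multiply the value number `cur` by the values with the numbers in the list -/
def mulT : List ℕ → ℕ → ℕ → (ℕ → ℕ → Tree K) → Tree K
  | [], cur, ℓ, k => k cur ℓ
  | j :: js, cur, ℓ, k => .op .mul cur j (mulT js ℓ (ℓ + 1) k)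

lemma mulT_depth (js : List ℕ) : ∀ (cur ℓ : ℕ) (k : ℕ → ℕ → Tree K) (D : ℕ),
    (∀ a ℓ', (k a ℓ').depth ≤ D) → (mulT js cur ℓ k).depth ≤ D + js.length := by
  induction js with
  | nil => intro cur ℓ k D h; exact h _ _
  | cons j js ih =>
    intro cur ℓ k D h
    simp only [mulT, Tree.depth, List.length_cons]
    have := ih ℓ (ℓ + 1) k D h
    omega

lemma mulT_acc (base : List K) (js : List ℕ) (hjs : ∀ j ∈ js, j < base.length) :
    ∀ (cur : ℕ) (u : List K), cur < (base ++ u).length → ∀ k : ℕ → ℕ → Tree K,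
      ∃ (w : List K) (cur' : ℕ), cur' < (base ++ u ++ w).length ∧
        (base ++ u ++ w).getD cur' 0 =
          (base ++ u).getD cur 0 * (js.map fun j => base.getD j 0).prod ∧
        ((mulT js cur (base ++ u).length k).Acc tst (base ++ u) ↔
          (k cur' (base ++ u ++ w).length).Acc tst (base ++ u ++ w)) := by
  induction js with
  | nil =>
    intro cur u hcur k
    exact ⟨[], cur, by simpa using hcur, by simp, by simp [mulT]⟩
  | cons j js ih =>
    intro cur u hcur k
    have hj : j < base.length := hjs j List.mem_cons_self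
    set r := (base ++ u).getD cur 0 * base.getD j 0 with hr
    obtain ⟨w, cur', h1, h2, h3⟩ := ih (fun j' hj' => hjs j' (List.mem_cons_of_mem _ hj'))
      (base ++ u).length (u ++ [r]) (by simp) k
    refine ⟨r :: w, cur', ?_, ?_, ?_⟩
    · simpa using h1
    · have e1 : base ++ u ++ r :: w = base ++ (u ++ [r]) ++ w := by simp
      rw [e1, h2]
      have e2 : (base ++ (u ++ [r])).getD (base ++ u).length 0 = r := by
        rw [← List.append_assoc, List.getD_append_right _ _ _ _ le_rfl]
        simp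
      rw [e2, hr]
      simp only [List.map_cons, List.prod_cons]
      ring
    · have e1 : base ++ u ++ r :: w = base ++ (u ++ [r]) ++ w := by simp
      rw [e1, ← h3]
      simp only [mulT, Tree.Acc, Op.eval]
      have e3 : (base ++ u).getD j 0 = base.getD j 0 := List.getD_append _ _ _ _ hj
      rw [e3, ← hr]
      have e4 : (base ++ (u ++ [r])).length = (base ++ u).length + 1 := by simp [add_assoc]
      rw [e4, List.append_assoc]

/-- add up the products of the values with the numbers in the terms -/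
def sumT : List (ℕ × List ℕ) → ℕ → ℕ → (ℕ → ℕ → Tree K) → Tree K
  | [], acc, ℓ, k => k acc ℓ
  | t :: ts, acc, ℓ, k => mulT t.2 t.1 ℓ (fun c ℓ₁ => .op .add acc c (sumT ts ℓ₁ (ℓ₁ + 1) k))

lemma sumT_depth (d : ℕ) (ts : List (ℕ × List ℕ)) (hts : ∀ t ∈ ts, t.2.length ≤ d) :
    ∀ (acc ℓ : ℕ) (k : ℕ → ℕ → Tree K) (D : ℕ),
    (∀ a ℓ', (k a ℓ').depth ≤ D) → (sumT ts acc ℓ k).depth ≤ D + (d + 1) * ts.length := by
  induction ts with
  | nil => intro cur ℓ k D h; exact h _ _
  | cons t ts ih =>
    intro acc ℓ k D h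
    simp only [sumT, List.length_cons]
    have h1 := hts t List.mem_cons_self
    have h2 := mulT_depth t.2 t.1 ℓ (fun c ℓ₁ => .op .add acc c (sumT ts ℓ₁ (ℓ₁ + 1) k))
      (D + (d + 1) * ts.length + 1) (by
        intro a ℓ'
        simp only [Tree.depth]
        exact Nat.succ_le_succ
          (ih (fun t' ht' => hts t' (List.mem_cons_of_mem _ ht')) ℓ' (ℓ' + 1) k D h))
    refine h2.trans ?_
    rw [Nat.mul_succ]
    omega

/-- the value of a term -/
def tval (base : List K) (t : ℕ × List ℕ) : K :=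
  base.getD t.1 0 * (t.2.map fun j => base.getD j 0).prod

lemma sumT_acc (base : List K) (ts : List (ℕ × List ℕ))
    (hts : ∀ t ∈ ts, t.1 < base.length ∧ ∀ j ∈ t.2, j < base.length) :
    ∀ (acc : ℕ) (u : List K), acc < (base ++ u).length → ∀ k : ℕ → ℕ → Tree K,
      ∃ (w : List K) (acc' : ℕ), acc' < (base ++ u ++ w).length ∧
        (base ++ u ++ w).getD acc' 0 = (base ++ u).getD acc 0 + (ts.map (tval base)).sum ∧
        ((sumT ts acc (base ++ u).length k).Acc tst (base ++ u) ↔
          (k acc' (base ++ u ++ w).length).Acc tst (base ++ u ++ w)) := by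
  induction ts with
  | nil =>
    intro acc u hacc k
    exact ⟨[], acc, by simpa using hacc, by simp, by simp [sumT]⟩
  | cons t ts ih =>
    intro acc u hacc k
    obtain ⟨ht1, ht2⟩ := hts t List.mem_cons_self
    obtain ⟨w, c, h1, h2, h3⟩ := mulT_acc tst base t.2 ht2 t.1 u (by simp; omega)
      (fun c ℓ₁ => .op .add acc c (sumT ts ℓ₁ (ℓ₁ + 1) k))
    set r := (base ++ u).getD acc 0 + tval base t with hr
    have hc : (base ++ u ++ w).getD c 0 = tval base t := by
      rw [h2, List.getD_append _ _ _ _ ht1]; rfl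
    have ha : (base ++ u ++ w).getD acc 0 = (base ++ u).getD acc 0 :=
      List.getD_append _ _ _ _ hacc
    obtain ⟨w', acc', g1, g2, g3⟩ := ih (fun t' ht' => hts t' (List.mem_cons_of_mem _ ht'))
      (base ++ u ++ w).length (u ++ w ++ [r]) (by simp [add_assoc]) k
    have e1 : base ++ u ++ (w ++ r :: w') = base ++ (u ++ w ++ [r]) ++ w' := by simp
    refine ⟨w ++ r :: w', acc', ?_, ?_, ?_⟩
    · rw [e1]; exact g1
    · rw [e1, g2]
      have e2 : (base ++ (u ++ w ++ [r])).getD (base ++ u ++ w).length 0 = r := by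
        have : base ++ (u ++ w ++ [r]) = base ++ u ++ w ++ [r] := by simp
        rw [this, List.getD_append_right _ _ _ _ le_rfl]
        simp
      rw [e2, hr, List.map_cons, List.sum_cons, add_assoc]
    · rw [e1, ← g3]
      simp only [sumT]
      rw [h3]
      simp only [Tree.Acc, Op.eval]
      rw [ha, hc, ← hr]
      have e4 : (base ++ (u ++ w ++ [r])).length = (base ++ u ++ w).length + 1 := by
        simp [add_assoc]
      have e5 : base ++ (u ++ w ++ [r]) = base ++ u ++ w ++ [r] := by simp
      rw [e4, e5]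

/-- a fragment which continues if a value is zero and rejects otherwise -/
structure ZeroTest (tst : K → Prop) (c : ℕ) where
  /-- the fragment -/
  zt : ℕ → ℕ → (ℕ → Tree K) → Tree K
  /-- its cost -/
  depth : ∀ acc ℓ k D, (∀ ℓ', (k ℓ').depth ≤ D) → (zt acc ℓ k).depth ≤ D + c
  /-- its meaning -/
  acc : ∀ (a : ℕ) (v : List K) (k : ℕ → Tree K), a < v.length → ∃ w : List K,
    ((zt a v.length k).Acc tst v ↔ v.getD a 0 = 0 ∧ (k (v ++ w).length).Acc tst (v ++ w))

variable {tst} {c : ℕ} (Z : ZeroTest tst c)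

/-- check all equations -/
def sysT : List (List (ℕ × List ℕ)) → ℕ → Tree K
  | [], _ => .leaf true
  | E :: Es, ℓ => .const 0 (sumT E ℓ (ℓ + 1) fun acc ℓ₁ => Z.zt acc ℓ₁ fun ℓ₂ => sysT Es ℓ₂)

lemma sysT_depth (d : ℕ) (Es : List (List (ℕ × List ℕ)))
    (hE : ∀ E ∈ Es, ∀ t ∈ E, t.2.length ≤ d) : ∀ ℓ : ℕ,
    (sysT Z Es ℓ).depth ≤ (Es.map fun E => 1 + c + (d + 1) * E.length).sum := by
  induction Es with
  | nil => intro ℓ; simp [sysT, Tree.depth]
  | cons E Es ih =>
    intro ℓ
    simp only [sysT, Tree.depth, List.map_cons, List.sum_cons]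
    have h1 := sumT_depth d E (hE E List.mem_cons_self) ℓ (ℓ + 1)
      (fun acc ℓ₁ => Z.zt acc ℓ₁ fun ℓ₂ => sysT Z Es ℓ₂)
      ((Es.map fun E => 1 + c + (d + 1) * E.length).sum + c) (by
        intro a ℓ'
        apply Z.depth
        exact ih (fun E' hE' => hE E' (List.mem_cons_of_mem _ hE')))
    omega

lemma sysT_acc (base : List K) (Es : List (List (ℕ × List ℕ)))
    (hE : ∀ E ∈ Es, ∀ t ∈ E, t.1 < base.length ∧ ∀ j ∈ t.2, j < base.length) : ∀ u : List K,
    ((sysT Z Es (base ++ u).length).Acc tst (base ++ u) ↔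
      ∀ E ∈ Es, (E.map (tval base)).sum = 0) := by
  induction Es with
  | nil => intro u; simp [sysT, Tree.Acc]
  | cons E Es ih =>
    intro u
    simp only [sysT, Tree.Acc]
    obtain ⟨w, acc, h1, h2, h3⟩ := sumT_acc tst base E (hE E List.mem_cons_self)
      (base ++ u).length (u ++ [0]) (by simp [add_assoc])
      (fun acc ℓ₁ => Z.zt acc ℓ₁ fun ℓ₂ => sysT Z Es ℓ₂)
    have e1 : base ++ (u ++ [0]) = base ++ u ++ [0] := by simp
    have e2 : (base ++ (u ++ [0])).length = (base ++ u).length + 1 := by simp [add_assoc]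
    rw [e2, e1] at h3
    rw [h3]
    rw [e1] at h2 h1
    obtain ⟨w', h4⟩ := Z.acc acc (base ++ u ++ [0] ++ w) (fun ℓ₂ => sysT Z Es ℓ₂) h1
    rw [h4, h2]
    have e3 : (base ++ u ++ [0]).getD (base ++ u).length 0 = (0 : K) := by
      rw [List.getD_append_right _ _ _ _ le_rfl]
      simp
    rw [e3, zero_add]
    have e4 : base ++ u ++ [0] ++ w ++ w' = base ++ (u ++ [0] ++ w ++ w') := by simp
    rw [e4, ih (fun E' hE' => hE E' (List.mem_cons_of_mem _ hE'))]
    simp only [List.mem_cons, forall_eq_or_imp]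

end

/-! ### Zero tests -/

/-- with equality tests -/
def zeroTestEq (K : Type) [Field K] : ZeroTest (fun x : K => x = 0) 1 where
  zt acc ℓ k := .test acc (k ℓ) (.leaf false)
  depth acc ℓ k D h := by
    simp only [Tree.depth]
    have := h ℓ
    omega
  acc a v k ha := ⟨[], by simp [Tree.Acc]⟩

/-- with order tests -/
def zeroTestOrd (K : Type) [Field K] [LinearOrder K] [IsStrictOrderedRing K] :
    ZeroTest (fun x : K => 0 ≤ x) 4 where
  zt acc ℓ k := .op .mul acc acc (.const 0 (.op .sub (ℓ + 1) ℓ (.test (ℓ + 2) (k (ℓ + 3))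
    (.leaf false))))
  depth acc ℓ k D h := by
    simp only [Tree.depth]
    have := h (ℓ + 3)
    omega
  acc a v k ha := by
    refine ⟨[v.getD a 0 * v.getD a 0, 0, 0 - v.getD a 0 * v.getD a 0], ?_⟩
    simp only [Tree.Acc, Op.eval]
    set r := v.getD a 0 with hr
    have e1 : (v ++ [r * r] ++ [0]).getD (v.length + 1) 0 = (0 : K) := by
      rw [List.getD_append_right _ _ _ _ (by simp)]
      simp
    have e2 : (v ++ [r * r] ++ [0]).getD v.length 0 = r * r := by
      rw [List.getD_append _ _ _ _ (by simp), List.getD_append_right _ _ _ _ le_rfl]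
      simp
    rw [e1, e2]
    have e3 : (v ++ [r * r] ++ [0] ++ [0 - r * r]).getD (v.length + 2) 0 = 0 - r * r := by
      rw [List.getD_append_right _ _ _ _ (by simp)]
      simp
    rw [e3]
    have e4 : (0 ≤ 0 - r * r) ↔ r = 0 := by
      constructor
      · intro h
        have h1 : r * r ≤ 0 := by linarith
        exact mul_self_eq_zero.mp (le_antisymm h1 (mul_self_nonneg r))
      · intro h; rw [h]; simp
    rw [e4]
    have e5 : v ++ [r * r] ++ [0] ++ [0 - r * r] = v ++ [r * r, 0, 0 - r * r] := by simp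
    have e6 : (v ++ [r * r, 0, 0 - r * r]).length = v.length + 3 := by simp
    rw [e5, e6]
    simp

/-! ### The format -/

section Format

variable {m k : ℕ} (deg : Fin k → ℕ) {N : ℕ} (ord : Fin N ≃ Coef (Fin m) deg)

/-- the numbers of the unknowns of a monomial -/
def vars {d : ℕ} (N : ℕ) (μ : Mon (Fin m) d) : List ℕ :=
  (List.finRange m).flatMap fun j => List.replicate (μ.1 j) (N + (j : ℕ))

lemma vars_length {d : ℕ} (N : ℕ) (μ : Mon (Fin m) d) : (vars N μ).length ≤ d := by
  refine le_trans (le_of_eq ?_) μ.2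
  unfold vars
  rw [List.length_flatMap, Fin.sum_univ_def]
  congr 1
  apply List.map_congr_left
  intro j _
  rw [List.length_replicate]

lemma vars_prod {d : ℕ} (N : ℕ) (μ : Mon (Fin m) d) {K : Type} [Field K] (f : ℕ → K) :
    ((vars N μ).map f).prod = ∏ j : Fin m, f (N + (j : ℕ)) ^ (μ.1 j : ℕ) := by
  unfold vars
  rw [Fin.prod_univ_def]
  induction (List.finRange m) with
  | nil => simp
  | cons j l ih =>
    rw [List.flatMap_cons, List.map_append, List.prod_append, ih, List.map_cons, List.prod_cons,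
      List.map_replicate, List.prod_replicate]

/-- the terms of an equation -/
noncomputable def terms (i : Fin k) : List (ℕ × List ℕ) :=
  (Finset.univ : Finset (Mon (Fin m) (deg i))).toList.map
    fun μ => (((ord.symm ⟨i, μ⟩ : Fin N) : ℕ), vars N μ)

lemma terms_sum {K : Type} [Field K] (a : Coef (Fin m) deg → K) (y : Fin m → K) (i : Fin k) :
    ((terms deg ord i).map (tval (List.ofFn (a ∘ ord) ++ List.ofFn y))).sum =
      ∑ μ : Mon (Fin m) (deg i), a ⟨i, μ⟩ * μ.val y := by
  unfold terms
  rw [List.map_map, Finset.sum_map_toList]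
  apply Finset.sum_congr rfl
  intro μ _
  simp only [Function.comp_apply, tval]
  rw [vars_prod]
  have h1 : (List.ofFn (a ∘ ord) ++ List.ofFn y).getD ((ord.symm ⟨i, μ⟩ : Fin N) : ℕ) 0 =
      a ⟨i, μ⟩ := by
    rw [List.getD_append _ _ _ _ (by rw [List.length_ofFn]; exact (ord.symm ⟨i, μ⟩).2)]
    rw [List.getD_eq_getElem _ _ (by rw [List.length_ofFn]; exact (ord.symm ⟨i, μ⟩).2)]
    rw [List.getElem_ofFn]
    exact congrArg a (ord.apply_symm_apply ⟨i, μ⟩)
  rw [h1]
  congr 1
  unfold Mon.val
  apply Finset.prod_congr rfl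
  intro j _
  congr 1
  rw [List.getD_append_right _ _ _ _ (by rw [List.length_ofFn]; omega)]
  rw [List.length_ofFn, Nat.add_sub_cancel_left,
    List.getD_eq_getElem _ _ (by rw [List.length_ofFn]; exact j.2), List.getElem_ofFn]

lemma terms_good {K : Type} [Field K] (a : Coef (Fin m) deg → K) (y : Fin m → K) (i : Fin k) :
    ∀ t ∈ terms deg ord i, t.1 < (List.ofFn (a ∘ ord) ++ List.ofFn y).length ∧
      ∀ j ∈ t.2, j < (List.ofFn (a ∘ ord) ++ List.ofFn y).length := by
  intro t ht
  obtain ⟨μ, _, rfl⟩ := List.mem_map.mp ht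
  rw [List.length_append, List.length_ofFn, List.length_ofFn]
  refine ⟨?_, ?_⟩
  · have := (ord.symm ⟨i, μ⟩ : Fin N).2
    simp only
    omega
  · intro j hj
    unfold vars at hj
    obtain ⟨l, _, hl⟩ := List.mem_flatMap.mp hj
    have := List.eq_of_mem_replicate hl
    have := l.2
    omega

lemma card_Mon_pos (ι : Type) [Fintype ι] [DecidableEq ι] (d : ℕ) :
    1 ≤ Fintype.card (Mon ι d) :=
  Fintype.card_pos_iff.mpr ⟨⟨fun _ => 0, by simp⟩⟩

/-- the size of a system: the number of its coefficients -/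
abbrev size (m : ℕ) {k : ℕ} (deg : Fin k → ℕ) : ℕ := Fintype.card (Coef (Fin m) deg)

lemma size_eq (m : ℕ) {k : ℕ} (deg : Fin k → ℕ) :
    size m deg = ∑ i, Fintype.card (Mon (Fin m) (deg i)) := by
  unfold size Coef
  exact Fintype.card_sigma

lemma k_le_size (m : ℕ) {k : ℕ} (deg : Fin k → ℕ) : k ≤ size m deg := by
  rw [size_eq]
  calc k = ∑ _i : Fin k, 1 := by simp
    _ ≤ _ := Finset.sum_le_sum fun i _ => card_Mon_pos _ _

/-- Solvability of systems of equations of degree at most `D` is recognised by a nondeterministic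
tree of linear depth. -/
theorem tree_solvable {K : Type} [Field K] {tst : K → Prop} {c : ℕ} (Z : ZeroTest tst c)
    (D : ℕ) (hD : ∀ i, deg i ≤ D) :
    ∃ T : Tree K, T.depth ≤ (D + 2 + c) * N ∧ ∀ a : Coef (Fin m) deg → K,
      (∃ y : Fin m → K, T.Acc tst (List.ofFn (a ∘ ord) ++ List.ofFn y)) ↔ Solvable deg a := by
  have hN : N = size m deg := by
    have := Fintype.card_congr ord
    rwa [Fintype.card_fin] at this
  refine ⟨sysT Z ((List.finRange k).map (terms deg ord)) (N + m), ?_, ?_⟩
  · refine (sysT_depth Z D _ ?_ _).trans ?_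
    · intro E hE t ht
      obtain ⟨i, _, rfl⟩ := List.mem_map.mp hE
      obtain ⟨μ, _, rfl⟩ := List.mem_map.mp ht
      exact (vars_length _ _).trans (hD i)
    · rw [List.map_map, ← Fin.sum_univ_def]
      have h1 : ∀ i : Fin k, ((fun E : List (ℕ × List ℕ) => 1 + c + (D + 1) * E.length) ∘
          terms deg ord) i = (1 + c) + (D + 1) * Fintype.card (Mon (Fin m) (deg i)) := by
        intro i
        simp only [Function.comp_apply, terms, List.length_map, Finset.length_toList,
          Finset.card_univ]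
      rw [Finset.sum_congr rfl fun i _ => h1 i, Finset.sum_add_distrib, ← Finset.mul_sum,
        ← size_eq, ← hN]
      simp only [Finset.sum_const, Finset.card_univ, Fintype.card_fin, smul_eq_mul]
      have h2 : k ≤ N := by rw [hN]; exact k_le_size m deg
      nlinarith [Nat.mul_le_mul_right (1 + c) h2]
  · intro a
    have key : ∀ y : Fin m → K, (sysT Z ((List.finRange k).map (terms deg ord)) (N + m)).Acc tst
        (List.ofFn (a ∘ ord) ++ List.ofFn y) ↔
        ∀ i, ∑ μ : Mon (Fin m) (deg i), a ⟨i, μ⟩ * μ.val y = 0 := by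
      intro y
      have h := sysT_acc Z (List.ofFn (a ∘ ord) ++ List.ofFn y)
        ((List.finRange k).map (terms deg ord)) (by
          intro E hE
          obtain ⟨i, _, rfl⟩ := List.mem_map.mp hE
          exact terms_good deg ord a y i) []
      rw [List.append_nil, List.length_append, List.length_ofFn, List.length_ofFn] at h
      rw [h]
      simp only [List.mem_map, List.mem_finRange, true_and, forall_exists_index,
        forall_apply_eq_imp_iff, terms_sum]
    simp only [key]
    rfl

end Format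

end Pool.Agent.H546R2.BS
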