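import Pool.Agent.H546R2.BS.B3
import Pool.Agent.H546R2.BS.B7

set_option autoImplicit false
set_option linter.unusedSectionVars false

/-!
# The bound for real computation trees with order tests
-/

namespace Pool.Agent.H546R2.BS.R

open MvPolynomial

/-- order tests -/
abbrev ord (x : ℝ) : Prop := 0 ≤ x

section

variable {σ : Type} [Fintype σ] [DecidableEq σ]

/-- the values of a list of polynomials -/
noncomputable def ev {ι : Type} (z : ι → ℝ) (V : List (MvPolynomial ι ℝ)) : List ℝ :=
  V.map (eval z)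

lemma ev_getD {ι : Type} (z : ι → ℝ) (V : List (MvPolynomial ι ℝ)) (i : ℕ) :
    (ev z V).getD i 0 = eval z (V.getD i 0) := by
  unfold ev
  have h0 : (0 : ℝ) = eval z 0 := by simp
  rw [h0, List.getD_map]

lemma ev_append {ι : Type} (z : ι → ℝ) (V W : List (MvPolynomial ι ℝ)) :
    ev z (V ++ W) = ev z V ++ ev z W := by
  unfold ev
  rw [List.map_append]

/-- the old polynomials -/
noncomputable def upV (τ β : Type) (V : List (MvPolynomial (σ ⊕ τ) ℝ)) :
    List (MvPolynomial (σ ⊕ (τ ⊕ β)) ℝ) := V.map (rename (lift σ τ β))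

lemma ev_upV {τ β : Type} (z : σ ⊕ (τ ⊕ β) → ℝ) (V : List (MvPolynomial (σ ⊕ τ) ℝ)) :
    ev z (upV τ β V) = ev (z ∘ lift σ τ β) V := by
  unfold ev upV
  rw [List.map_map]
  apply List.map_congr_left
  intro p _
  simp only [Function.comp_apply, eval_rename]

/-- the statement proved by induction -/
def Bd (σ : Type) [Fintype σ] {Y : Type} (L : Y → (σ → ℝ) → ℝ) (T : Tree ℝ) (d : ℕ) : Prop :=
  ∀ (τ : Type) [Fintype τ] [DecidableEq τ] (H : List (MvPolynomial (σ ⊕ τ) ℝ))
    (V : List (MvPolynomial (σ ⊕ τ) ℝ)),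
    (∀ h ∈ H, h.totalDegree ≤ 2) → (∀ p ∈ V, p.totalDegree ≤ 1) →
    (∀ z : σ ⊕ τ → ℝ, (∀ h ∈ H, eval z h = 0) → T.Acc ord (ev z V) →
      ∀ i, L i (z ∘ Sum.inl) ≠ 0) →
    ∀ P : Finset (σ → ℝ), (∀ p ∈ P, ∃ y : τ → ℝ, (∀ h ∈ H, eval (Sum.elim p y) h = 0) ∧
      T.Acc ord (ev (Sum.elim p y) V)) →
    (∀ p ∈ P, ∀ q ∈ P, p ≠ q → ∃ i, L i p * L i q < 0) →
    P.card ≤ 2 ^ d * 5 ^ (Fintype.card σ + Fintype.card τ + 2 * d)

lemma Bd.step {Y : Type} {L : Y → (σ → ℝ) → ℝ} {T T₀ : Tree ℝ} {d : ℕ} (hT : Bd σ L T d)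
    {τ : Type} [Fintype τ] [DecidableEq τ] (β : Type) [Fintype β] [DecidableEq β]
    (H : List (MvPolynomial (σ ⊕ τ) ℝ)) (V : List (MvPolynomial (σ ⊕ τ) ℝ))
    (N : List (MvPolynomial (σ ⊕ (τ ⊕ β)) ℝ)) (W : List (MvPolynomial (σ ⊕ (τ ⊕ β)) ℝ))
    (hH : ∀ h ∈ H, h.totalDegree ≤ 2) (hV : ∀ p ∈ V, p.totalDegree ≤ 1)
    (hN : ∀ h ∈ N, h.totalDegree ≤ 2) (hW : ∀ p ∈ W, p.totalDegree ≤ 1)
    (hS : ∀ z : σ ⊕ τ → ℝ, (∀ h ∈ H, eval z h = 0) → T₀.Acc ord (ev z V) →
      ∀ i, L i (z ∘ Sum.inl) ≠ 0)
    (ha : ∀ z : σ ⊕ (τ ⊕ β) → ℝ, (∀ h ∈ N, eval z h = 0) →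
      T.Acc ord (ev (z ∘ lift σ τ β) V ++ ev z W) → T₀.Acc ord (ev (z ∘ lift σ τ β) V))
    (P : Finset (σ → ℝ))
    (hP : ∀ p ∈ P, ∃ (y : τ → ℝ) (b : β → ℝ), (∀ h ∈ H, eval (Sum.elim p y) h = 0) ∧
      (∀ h ∈ N, eval (Sum.elim p (Sum.elim y b)) h = 0) ∧
      T.Acc ord (ev (Sum.elim p y) V ++ ev (Sum.elim p (Sum.elim y b)) W))
    (hsep : ∀ p ∈ P, ∀ q ∈ P, p ≠ q → ∃ i, L i p * L i q < 0) :
    P.card ≤ 2 ^ d * 5 ^ (Fintype.card σ + (Fintype.card τ + Fintype.card β) + 2 * d) := by
  have hlift : ∀ (p : σ → ℝ) (y : τ → ℝ) (b : β → ℝ),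
      Sum.elim p (Sum.elim y b) ∘ lift σ τ β = Sum.elim p y := by
    intro p y b
    funext s
    rcases s with s | s <;> rfl
  have h := hT (τ ⊕ β) (H.map (rename (lift σ τ β)) ++ N) (upV τ β V ++ W) ?_ ?_ ?_ P ?_ hsep
  · rwa [Fintype.card_sum] at h
  · intro h hh
    rcases List.mem_append.mp hh with hh | hh
    · obtain ⟨g, hg, rfl⟩ := List.mem_map.mp hh
      exact (totalDegree_rename_le _ _).trans (hH g hg)
    · exact hN h hh
  · intro p hp
    rcases List.mem_append.mp hp with hp | hp
    · unfold upV at hp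
      obtain ⟨g, hg, rfl⟩ := List.mem_map.mp hp
      exact (totalDegree_rename_le _ _).trans (hV g hg)
    · exact hW p hp
  · intro z hz hacc
    rw [ev_append, ev_upV] at hacc
    have h1 : ∀ h ∈ N, eval z h = 0 := fun h hh => hz h (List.mem_append_right _ hh)
    have h2 : ∀ h ∈ H, eval (z ∘ lift σ τ β) h = 0 := by
      intro h hh
      rw [← eval_rename]
      exact hz _ (List.mem_append_left _ (List.mem_map_of_mem hh))
    exact hS (z ∘ lift σ τ β) h2 (ha z h1 hacc)
  · intro p hp
    obtain ⟨y, b, h1, h2, h3⟩ := hP p hp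
    refine ⟨Sum.elim y b, ?_, ?_⟩
    · intro h hh
      rcases List.mem_append.mp hh with hh | hh
      · obtain ⟨g, hg, rfl⟩ := List.mem_map.mp hh
        rw [eval_rename, hlift]
        exact h1 g hg
      · exact h2 h hh
    · rw [ev_append, ev_upV, hlift]
      exact h3

/-- the renamed polynomial number `i` -/
noncomputable def nth {τ : Type} (β : Type) (V : List (MvPolynomial (σ ⊕ τ) ℝ)) (i : ℕ) :
    MvPolynomial (σ ⊕ (τ ⊕ β)) ℝ := rename (lift σ τ β) (V.getD i 0)

lemma nth_deg {τ : Type} (β : Type) (V : List (MvPolynomial (σ ⊕ τ) ℝ))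
    (hV : ∀ p ∈ V, p.totalDegree ≤ 1) (i : ℕ) : (nth β V i).totalDegree ≤ 1 := by
  have h : (V.getD i 0).totalDegree ≤ 1 := by
    rcases getD_mem_or V i 0 with h | h
    · exact hV _ h
    · rw [h]; simp
  exact (totalDegree_rename_le _ _).trans h

lemma nth_ev {τ β : Type} (V : List (MvPolynomial (σ ⊕ τ) ℝ)) (i : ℕ)
    (z : σ ⊕ (τ ⊕ β) → ℝ) :
    eval z (nth β V i) = (ev (z ∘ lift σ τ β) V).getD i 0 := by
  rw [ev_getD]
  unfold nth
  rw [eval_rename]

lemma pow_bound {a d s t e : ℕ} (h : a ≤ 2 ^ d * 5 ^ (s + (t + e) + 2 * d)) (he : e ≤ 2) :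
    a ≤ 2 ^ d * 5 ^ (s + t + 2 * (d + 1)) :=
  h.trans (Nat.mul_le_mul_left _ (Nat.pow_le_pow_right (by norm_num) (by omega)))

lemma ev_single {ι : Type} (z : ι → ℝ) (p : MvPolynomial ι ℝ) : ev z [p] = [eval z p] := rfl

lemma split_two (P : Finset (σ → ℝ)) (A B : (σ → ℝ) → Prop) (h : ∀ p ∈ P, A p ∨ B p) :
    ∃ P₀ P₁ : Finset (σ → ℝ), P.card ≤ P₀.card + P₁.card ∧ (∀ p ∈ P₀, p ∈ P ∧ A p) ∧
      ∀ p ∈ P₁, p ∈ P ∧ B p := by
  classical
  refine ⟨P.filter A, P.filter B, ?_, fun p hp => Finset.mem_filter.mp hp,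
    fun p hp => Finset.mem_filter.mp hp⟩
  refine le_trans (Finset.card_le_card ?_) (Finset.card_union_le _ _)
  intro p hp
  rw [Finset.mem_union, Finset.mem_filter, Finset.mem_filter]
  rcases h p hp with h | h
  · exact Or.inl ⟨hp, h⟩
  · exact Or.inr ⟨hp, h⟩

/-- **the bound for real trees** -/
theorem tree_bd {Y : Type} [Finite Y] (L : Y → (σ → ℝ) → ℝ) (hL : ∀ i, Continuous (L i)) :
    ∀ (T : Tree ℝ) (d : ℕ), T.depth ≤ d → Bd σ L T d := by
  classical
  intro T
  induction T with
  | leaf b =>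
    intro d _ τ _ _ H V hH hV hS P hP hsep
    cases b with
    | true =>
      refine (card_points_le H hH L hL (fun z hz => hS z hz rfl) P
        (fun p hp => ?_) hsep).trans ?_
      · obtain ⟨y, hy, _⟩ := hP p hp
        exact ⟨y, hy⟩
      · calc 5 ^ (Fintype.card σ + Fintype.card τ) = 1 * 5 ^ (Fintype.card σ + Fintype.card τ) :=
              (one_mul _).symm
          _ ≤ 2 ^ d * 5 ^ (Fintype.card σ + Fintype.card τ + 2 * d) :=
            Nat.mul_le_mul Nat.one_le_two_pow (Nat.pow_le_pow_right (by norm_num) (by omega))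
    | false =>
      have : P = ∅ := by
        rw [Finset.eq_empty_iff_forall_notMem]
        intro p hp
        obtain ⟨y, _, hy⟩ := hP p hp
        exact absurd hy (by simp [Tree.Acc])
      rw [this]
      simp
  | const c T ih =>
    intro d hd τ _ _ H V hH hV hS P hP hsep
    obtain ⟨d', rfl⟩ : ∃ d', d = d' + 1 := ⟨d - 1, by simp only [Tree.depth] at hd; omega⟩
    have hT := ih d' (by simp only [Tree.depth] at hd; omega)
    apply one_bound
    refine pow_bound (hT.step (T₀ := .const c T) (Fin 0) H V [] [C c] hH hV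
      (by simp) ?_ hS ?_ P ?_ hsep) (by simp)
    · intro p hp
      rw [List.mem_singleton] at hp
      rw [hp, totalDegree_C]
      exact Nat.zero_le _
    · intro z _ hacc
      rw [ev_single, eval_C] at hacc
      exact hacc
    · intro p hp
      obtain ⟨y, hy, hacc⟩ := hP p hp
      refine ⟨y, Fin.elim0, hy, by simp, ?_⟩
      rw [ev_single, eval_C]
      exact hacc
  | op o i j T ih =>
    intro d hd τ _ _ H V hH hV hS P hP hsep
    obtain ⟨d', rfl⟩ : ∃ d', d = d' + 1 := ⟨d - 1, by simp only [Tree.depth] at hd; omega⟩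
    have hT := ih d' (by simp only [Tree.depth] at hd; omega)
    cases o with
    | add =>
      apply one_bound
      refine pow_bound (hT.step (T₀ := .op .add i j T) (Fin 0) H V []
        [nth (Fin 0) V i + nth (Fin 0) V j] hH hV (by simp) ?_ hS ?_ P ?_ hsep) (by simp)
      · intro p hp
        rw [List.mem_singleton] at hp
        rw [hp]
        exact deg_add (nth_deg _ V hV i) (nth_deg _ V hV j)
      · intro z _ hacc
        rw [ev_single, map_add, nth_ev, nth_ev] at hacc
        exact hacc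
      · intro p hp
        obtain ⟨y, hy, hacc⟩ := hP p hp
        refine ⟨y, Fin.elim0, hy, by simp, ?_⟩
        rw [ev_single, map_add, nth_ev, nth_ev, lift_elim]
        exact hacc
    | sub =>
      apply one_bound
      refine pow_bound (hT.step (T₀ := .op .sub i j T) (Fin 0) H V []
        [nth (Fin 0) V i - nth (Fin 0) V j] hH hV (by simp) ?_ hS ?_ P ?_ hsep) (by simp)
      · intro p hp
        rw [List.mem_singleton] at hp
        rw [hp]
        exact deg_sub (nth_deg _ V hV i) (nth_deg _ V hV j)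
      · intro z _ hacc
        rw [ev_single, map_sub, nth_ev, nth_ev] at hacc
        exact hacc
      · intro p hp
        obtain ⟨y, hy, hacc⟩ := hP p hp
        refine ⟨y, Fin.elim0, hy, by simp, ?_⟩
        rw [ev_single, map_sub, nth_ev, nth_ev, lift_elim]
        exact hacc
    | mul =>
      apply one_bound
      refine pow_bound (hT.step (T₀ := .op .mul i j T) (Fin 1) H V
        [nth (Fin 1) V i * nth (Fin 1) V j - nv σ τ (0 : Fin 1)]
        [nv σ τ (0 : Fin 1)] hH hV ?_ ?_ hS ?_ P ?_ hsep) (by simp)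
      · intro h hh
        rw [List.mem_singleton] at hh
        rw [hh]
        exact deg_sub (deg_two (nth_deg _ V hV i) (nth_deg _ V hV j))
          ((nv_deg _).trans (by norm_num))
      · intro p hp
        rw [List.mem_singleton] at hp
        rw [hp]
        exact nv_deg _
      · intro z hz hacc
        have h1 := hz _ List.mem_cons_self
        rw [map_sub, map_mul, nth_ev, nth_ev, sub_eq_zero] at h1
        rw [ev_single, ← h1] at hacc
        exact hacc
      · intro p hp
        obtain ⟨y, hy, hacc⟩ := hP p hp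
        refine ⟨y, fun _ => (ev (Sum.elim p y) V).getD i 0 * (ev (Sum.elim p y) V).getD j 0,
          hy, ?_, ?_⟩
        · intro h hh
          rw [List.mem_singleton] at hh
          rw [hh, map_sub, map_mul, nth_ev, nth_ev, lift_elim]
          simp [nv]
        · rw [ev_single]
          simp only [nv, eval_X, Sum.elim_inr]
          exact hacc
    | div =>
      obtain ⟨P₀, P₁, hcard, h₀, h₁⟩ := split_two P
        (fun p => ∃ y : τ → ℝ, (∀ h ∈ H, eval (Sum.elim p y) h = 0) ∧
          (Tree.op .div i j T).Acc ord (ev (Sum.elim p y) V) ∧ (ev (Sum.elim p y) V).getD j 0 = 0)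
        (fun p => ∃ y : τ → ℝ, (∀ h ∈ H, eval (Sum.elim p y) h = 0) ∧
          (Tree.op .div i j T).Acc ord (ev (Sum.elim p y) V) ∧ (ev (Sum.elim p y) V).getD j 0 ≠ 0)
        (by
          intro p hp
          obtain ⟨y, hy, hacc⟩ := hP p hp
          by_cases h0 : (ev (Sum.elim p y) V).getD j 0 = 0
          · exact Or.inl ⟨y, hy, hacc, h0⟩
          · exact Or.inr ⟨y, hy, hacc, h0⟩)
      refine two_bound hcard ?_ ?_
      · refine pow_bound (hT.step (T₀ := .op .div i j T) (Fin 0) H V
          [nth (Fin 0) V j] [0] hH hV ?_ ?_ hS ?_ P₀ ?_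
          (fun p hp q hq => hsep p (h₀ p hp).1 q (h₀ q hq).1)) (by simp)
        · intro h hh
          rw [List.mem_singleton] at hh
          rw [hh]
          exact (nth_deg _ V hV j).trans (by norm_num)
        · intro p hp
          rw [List.mem_singleton] at hp
          rw [hp]; simp
        · intro z hz hacc
          have h1 := hz _ List.mem_cons_self
          rw [nth_ev] at h1
          rw [ev_single, map_zero] at hacc
          simp only [Tree.Acc, Op.eval]
          rw [h1, div_zero]
          exact hacc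
        · intro p hp
          obtain ⟨y, hy, hacc, h0⟩ := (h₀ p hp).2
          refine ⟨y, Fin.elim0, hy, ?_, ?_⟩
          · intro h hh
            rw [List.mem_singleton] at hh
            rw [hh, nth_ev, lift_elim, h0]
          · rw [ev_single, map_zero]
            simp only [Tree.Acc, Op.eval] at hacc
            rw [h0, div_zero] at hacc
            exact hacc
      · refine pow_bound (hT.step (T₀ := .op .div i j T) (Fin 2) H V
          [nv σ τ (0 : Fin 2) * nth (Fin 2) V j - nth (Fin 2) V i,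
           nv σ τ (1 : Fin 2) * nth (Fin 2) V j - 1]
          [nv σ τ (0 : Fin 2)] hH hV ?_ ?_ hS ?_ P₁ ?_
          (fun p hp q hq => hsep p (h₁ p hp).1 q (h₁ q hq).1)) (by simp)
        · intro h hh
          have hi := nth_deg (Fin 2) V hV i
          have hj := nth_deg (Fin 2) V hV j
          simp only [List.mem_cons, List.not_mem_nil, or_false] at hh
          rcases hh with rfl | rfl
          · exact deg_sub (deg_two (nv_deg _) hj) (hi.trans (by norm_num))
          · exact deg_sub (deg_two (nv_deg _) hj) (by rw [totalDegree_one]; norm_num)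
        · intro p hp
          rw [List.mem_singleton] at hp
          rw [hp]
          exact nv_deg _
        · intro z hz hacc
          have h1 := hz _ List.mem_cons_self
          have h2 := hz _ (List.mem_cons_of_mem _ List.mem_cons_self)
          rw [map_sub, map_mul, nth_ev, nth_ev, sub_eq_zero] at h1
          rw [map_sub, map_mul, nth_ev, map_one, sub_eq_zero] at h2
          have h7 : (ev (z ∘ lift σ τ (Fin 2)) V).getD j 0 ≠ 0 :=
            right_ne_zero_of_mul (by rw [h2]; exact one_ne_zero)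
          rw [← eq_div_iff h7] at h1
          rw [ev_single, h1] at hacc
          exact hacc
        · intro p hp
          obtain ⟨y, hy, hacc, h0⟩ := (h₁ p hp).2
          refine ⟨y, ![(ev (Sum.elim p y) V).getD i 0 / (ev (Sum.elim p y) V).getD j 0,
            ((ev (Sum.elim p y) V).getD j 0)⁻¹], hy, ?_, ?_⟩
          · intro h hh
            simp only [List.mem_cons, List.not_mem_nil, or_false] at hh
            rcases hh with rfl | rfl
            · rw [map_sub, map_mul, nth_ev, nth_ev, lift_elim]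
              simp only [nv, eval_X, Sum.elim_inr, Matrix.cons_val_zero]
              rw [div_mul_cancel₀ _ h0, sub_self]
            · rw [map_sub, map_mul, nth_ev, lift_elim, map_one]
              simp only [nv, eval_X, Sum.elim_inr, Matrix.cons_val_one, Matrix.cons_val_fin_one]
              rw [inv_mul_cancel₀ h0, sub_self]
          · rw [ev_single]
            simp only [nv, eval_X, Sum.elim_inr, Matrix.cons_val_zero]
            exact hacc
  | test i T T' ih ih' =>
    intro d hd τ _ _ H V hH hV hS P hP hsep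
    obtain ⟨d', rfl⟩ : ∃ d', d = d' + 1 := ⟨d - 1, by simp only [Tree.depth] at hd; omega⟩
    have hT := ih d' (by simp only [Tree.depth] at hd; omega)
    have hT' := ih' d' (by simp only [Tree.depth] at hd; omega)
    obtain ⟨P₀, P₁, hcard, h₀, h₁⟩ := split_two P
      (fun p => ∃ y : τ → ℝ, (∀ h ∈ H, eval (Sum.elim p y) h = 0) ∧
        0 ≤ (ev (Sum.elim p y) V).getD i 0 ∧ T.Acc ord (ev (Sum.elim p y) V))
      (fun p => ∃ y : τ → ℝ, (∀ h ∈ H, eval (Sum.elim p y) h = 0) ∧
        ¬ 0 ≤ (ev (Sum.elim p y) V).getD i 0 ∧ T'.Acc ord (ev (Sum.elim p y) V))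
      (by
        intro p hp
        obtain ⟨y, hy, hacc⟩ := hP p hp
        simp only [Tree.Acc, ord] at hacc
        rcases hacc with h | h
        · exact Or.inl ⟨y, hy, h⟩
        · exact Or.inr ⟨y, hy, h⟩)
    refine two_bound hcard ?_ ?_
    · refine pow_bound (hT.step (T₀ := .test i T T') (Fin 1) H V
        [nv σ τ (0 : Fin 1) * nv σ τ (0 : Fin 1) - nth (Fin 1) V i] [] hH hV ?_ (by simp) hS ?_
        P₀ ?_ (fun p hp q hq => hsep p (h₀ p hp).1 q (h₀ q hq).1)) (by simp)
      · intro h hh
        rw [List.mem_singleton] at hh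
        rw [hh]
        exact deg_sub (deg_two (nv_deg _) (nv_deg _)) ((nth_deg _ V hV i).trans (by norm_num))
      · intro z hz hacc
        have h1 := hz _ List.mem_cons_self
        rw [map_sub, map_mul, nth_ev, sub_eq_zero] at h1
        simp only [Tree.Acc]
        left
        refine ⟨by rw [← h1]; exact mul_self_nonneg _, ?_⟩
        simpa [ev] using hacc
      · intro p hp
        obtain ⟨y, hy, h0, hacc⟩ := (h₀ p hp).2
        refine ⟨y, fun _ => Real.sqrt ((ev (Sum.elim p y) V).getD i 0), hy, ?_, ?_⟩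
        · intro h hh
          rw [List.mem_singleton] at hh
          rw [hh, map_sub, map_mul, nth_ev, lift_elim]
          simp only [nv, eval_X, Sum.elim_inr]
          rw [Real.mul_self_sqrt h0, sub_self]
        · simpa [ev] using hacc
    · refine pow_bound (hT'.step (T₀ := .test i T T') (Fin 2) H V
        [nv σ τ (0 : Fin 2) * nv σ τ (0 : Fin 2) - nv σ τ (1 : Fin 2),
         nv σ τ (1 : Fin 2) * nth (Fin 2) V i + 1] [] hH hV ?_ (by simp) hS ?_
        P₁ ?_ (fun p hp q hq => hsep p (h₁ p hp).1 q (h₁ q hq).1)) (by simp)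
      · intro h hh
        simp only [List.mem_cons, List.not_mem_nil, or_false] at hh
        rcases hh with rfl | rfl
        · exact deg_sub (deg_two (nv_deg _) (nv_deg _)) ((nv_deg _).trans (by norm_num))
        · exact deg_add (deg_two (nv_deg _) (nth_deg _ V hV i))
            (by rw [totalDegree_one]; norm_num)
      · intro z hz hacc
        have h1 := hz _ List.mem_cons_self
        have h2 := hz _ (List.mem_cons_of_mem _ List.mem_cons_self)
        rw [map_sub, map_mul, sub_eq_zero] at h1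
        rw [map_add, map_mul, nth_ev, map_one] at h2
        have h3 : 0 ≤ eval z (nv σ τ (1 : Fin 2)) := by rw [← h1]; exact mul_self_nonneg _
        simp only [Tree.Acc, ord]
        right
        refine ⟨?_, ?_⟩
        · intro h4
          have := mul_nonneg h3 h4
          linarith
        · simpa [ev] using hacc
      · intro p hp
        obtain ⟨y, hy, h0, hacc⟩ := (h₁ p hp).2
        obtain ⟨B, hB⟩ : ∃ B, B = (ev (Sum.elim p y) V).getD i 0 := ⟨_, rfl⟩
        rw [← hB] at h0
        have hBneg : B < 0 := not_le.mp h0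
        have h5 : 0 ≤ -B⁻¹ := by
          rw [neg_nonneg]
          exact inv_nonpos.mpr hBneg.le
        refine ⟨y, ![Real.sqrt (-B⁻¹), -B⁻¹], hy, ?_, ?_⟩
        · intro h hh
          simp only [List.mem_cons, List.not_mem_nil, or_false] at hh
          rcases hh with rfl | rfl
          · rw [map_sub, map_mul]
            simp only [nv, eval_X, Sum.elim_inr, Matrix.cons_val_zero, Matrix.cons_val_one,
              Matrix.cons_val_fin_one]
            rw [Real.mul_self_sqrt h5, sub_self]
          · rw [map_add, map_mul, nth_ev, lift_elim, map_one, ← hB]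
            simp only [nv, eval_X, Sum.elim_inr, Matrix.cons_val_one, Matrix.cons_val_fin_one]
            rw [neg_mul, inv_mul_cancel₀ hBneg.ne]
            ring
        · simpa [ev] using hacc

end

end Pool.Agent.H546R2.BS.R
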