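import Pool.Agent.H546R2.BS.B5
import Pool.Agent.H546R2.BS.C1

set_option autoImplicit false
set_option linter.unusedSectionVars false

/-!
# Assembly: the lower bound for the special systems, over the real numbers
-/

namespace Pool.Agent.H546R2.BS.R

open MvPolynomial

lemma numeric {n d g : ℕ} (h : 2 ^ (n ^ 4) ≤ 2 ^ d * 5 ^ (n ^ 3 + g + 2 * d)) :
    3 * n ^ 4 ≤ 17 * d + 7 * g + 7 * n ^ 3 := by
  have h1 : (2 ^ (n ^ 4)) ^ 3 ≤ (2 ^ d * 5 ^ (n ^ 3 + g + 2 * d)) ^ 3 := Nat.pow_le_pow_left h 3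
  have h2 : (2 ^ d * 5 ^ (n ^ 3 + g + 2 * d)) ^ 3 ≤
      2 ^ (17 * d + 7 * g + 7 * n ^ 3) := by
    calc (2 ^ d * 5 ^ (n ^ 3 + g + 2 * d)) ^ 3
        = 2 ^ (3 * d) * (5 ^ 3) ^ (n ^ 3 + g + 2 * d) := by
          rw [mul_pow, ← pow_mul, ← pow_mul, ← pow_mul]; congr 1 <;> ring_nf
      _ ≤ 2 ^ (3 * d) * (2 ^ 7) ^ (n ^ 3 + g + 2 * d) :=
          Nat.mul_le_mul_left _ (Nat.pow_le_pow_left (by norm_num) _)
      _ = 2 ^ (17 * d + 7 * g + 7 * n ^ 3) := by
          rw [← pow_mul, ← pow_add]; congr 1; ring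
  rw [← pow_mul] at h1
  have h3 := (Nat.pow_le_pow_iff_right (by norm_num : 1 < 2)).mp (h1.trans h2)
  omega

theorem lower_spec {n N g : ℕ} (e : Fin N → Coef (Un n) (dg n)) (T : Tree ℝ)
    (hT₀ : ∀ a : Coef (Un n) (dg n) → ℝ, Solvable01 (dg n) a →
      ¬ ∃ w : Fin g → ℝ, T.Acc ord ((List.ofFn fun i => a (e i)) ++ List.ofFn w))
    (hT₁ : ∀ a : Coef (Un n) (dg n) → ℝ, ¬ Solvable (dg n) (fun c => ((a c : ℝ) : ℂ)) →
      ∃ w : Fin g → ℝ, T.Acc ord ((List.ofFn fun i => a (e i)) ++ List.ofFn w)) :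
    3 * n ^ 4 ≤ 17 * T.depth + 7 * g + 7 * n ^ 3 := by
  classical
  let τ : Type := Fin g
  let β : Pr n → MvPolynomial (Pr n ⊕ τ) ℝ := fun s => X (Sum.inl s)
  let V : List (MvPolynomial (Pr n ⊕ τ) ℝ) :=
    List.ofFn (fun i => spec n β (e i)) ++
      List.ofFn (fun j : Fin g => X (Sum.inr j))
  have hev : ∀ z : Pr n ⊕ τ → ℝ, ev z V =
      List.ofFn (fun i => spec n (fun s => z (Sum.inl s)) (e i)) ++
        List.ofFn (fun j : Fin g => z (Sum.inr j)) := by
    intro z
    rw [ev_append]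
    congr 1
    · unfold ev
      rw [List.map_ofFn]
      congr 1
      funext i
      simp only [Function.comp_apply]
      have h1 := map_spec (eval z) β (e i)
      simp only [β, eval_X] at h1
      exact h1
    · unfold ev
      rw [List.map_ofFn]
      congr 1
      funext j
      simp only [Function.comp_apply, eval_X]
  have hdegV : ∀ p ∈ V, p.totalDegree ≤ 1 := by
    intro p hp
    rcases List.mem_append.mp hp with hp | hp
    · obtain ⟨i, rfl⟩ := (List.mem_ofFn' _ _).mp hp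
      refine deg_spec _ (fun s => ?_) _
      simp only [β, totalDegree_X]; exact le_rfl
    · obtain ⟨i, rfl⟩ := (List.mem_ofFn' _ _).mp hp
      simp only [totalDegree_X]; exact le_rfl
  have hmain := tree_bd (σ := Pr n) (Lf n) (by
      intro i
      unfold Lf
      fun_prop) T T.depth le_rfl τ [] V (by simp) hdegV ?_ (pts n) ?_ (pts_sep n)
  · rw [card_pts] at hmain
    have hσ : Fintype.card (Pr n) = n ^ 3 := by
      rw [Fintype.card_prod, Fintype.card_prod, Fintype.card_fin]; ring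
    have hτ : Fintype.card τ = g := by
      simp only [τ, Fintype.card_fin]
    rw [hσ, hτ] at hmain
    exact numeric hmain
  · -- acceptance implies that no linear form vanishes
    intro z _ hacc i hi
    rw [hev] at hacc
    refine hT₀ (spec n (fun s => z (Sum.inl s))) (solvable01_spec _ i.1 i.2 ?_) ⟨_, hacc⟩
    simp only [Lf, Function.comp_apply] at hi
    exact sub_eq_zero.mp hi
  · intro p hp
    obtain ⟨m, _, rfl⟩ := Finset.mem_map.mp hp
    have h1 : ¬ Solvable (dg n) (fun c => ((spec n (fun s => pt n m s) c : ℝ) : ℂ)) := by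
      intro h0
      have h2 : (fun c => ((spec n (fun s => pt n m s) c : ℝ) : ℂ)) =
          spec n (fun s => ((pt n m s : ℝ) : ℂ)) := by
        funext c
        exact map_spec Complex.ofRealHom _ c
      rw [h2] at h0
      obtain ⟨s, a, h⟩ := of_solvable_spec _ h0
      exact half_ne_complex _ _ h
    obtain ⟨w, hw⟩ := hT₁ _ h1
    refine ⟨w, by simp, ?_⟩
    rw [hev]
    exact hw

end Pool.Agent.H546R2.BS.R
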