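import Pool.Agent.H546R2.BS.B6
import Pool.Agent.H546R2.BS.B8
import Pool.Agent.H546R2.BS.C2

set_option autoImplicit false
set_option linter.unusedSectionVars false

/-!
# Final assembly, for a general field
-/

namespace Pool.Agent.H546R2.BS

/-! ### The formats -/

lemma card_Un (n : ℕ) : Fintype.card (Un n) = 4 * n := by
  simp [Un, Fintype.card_sum, Fintype.card_prod]; ring

lemma card_Eq' (n : ℕ) : Fintype.card (Eq' n) = 4 * n + 4 := by
  unfold Eq'
  rw [Fintype.card_sum, Fintype.card_sum, card_Un, Fintype.card_fin, Fintype.card_unit]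

/-- numbering the unknowns -/
noncomputable def unE (n : ℕ) : Un n ≃ Fin (4 * n) := Fintype.equivFinOfCardEq (card_Un n)

/-- numbering the equations -/
noncomputable def eqE (n : ℕ) : Eq' n ≃ Fin (4 * n + 4) := Fintype.equivFinOfCardEq (card_Eq' n)

/-- the degrees of the special format -/
noncomputable def degF (n : ℕ) (i : Fin (4 * n + 4)) : ℕ := dg n ((eqE n).symm i)

lemma degF_le (n : ℕ) (i : Fin (4 * n + 4)) : degF n i ≤ 3 := by
  unfold degF
  rcases (eqE n).symm i with (v | s) | u <;> simp [dg]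

/-- the coefficients of the special format -/
noncomputable def cE (n : ℕ) : Coef (Un n) (dg n) ≃ Coef (Fin (4 * n)) (degF n) :=
  coefEquiv (unE n) (eqE n) (dg n) (degF n) (fun i => by unfold degF; rw [Equiv.symm_apply_apply])

lemma size_degF (n : ℕ) : size (4 * n) (degF n) = Fintype.card (Coef (Un n) (dg n)) :=
  (Fintype.card_congr (cE n)).symm

lemma size_le (n : ℕ) (hn : 1 ≤ n) : size (4 * n) (degF n) ≤ 240 * n ^ 3 := by
  rw [size_degF]
  exact card_Coef n hn

lemma le_size (n : ℕ) : n ^ 3 ≤ size (4 * n) (degF n) := by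
  rw [size_degF]
  have h1 : Fintype.card (Pr n) = n ^ 3 := by
    rw [Fintype.card_prod, Fintype.card_prod, Fintype.card_fin]; ring
  rw [← h1]
  apply Fintype.card_le_of_injective
    (fun s => (⟨Sum.inr (), μ₃ n (.inl s)⟩ : Coef (Un n) (dg n)))
  rintro ⟨i, j, k⟩ ⟨i', j', k'⟩ h
  have h2 : μ₃ n (.inl (i, j, k)) = μ₃ n (.inl (i', j', k')) := by
    have h0 := Sigma.mk.inj_iff.mp h
    exact eq_of_heq h0.2
  have h3 : ∀ v : Un n,
      (Pi.single (.inl (0, i)) 1 + Pi.single (.inl (1, j)) 1 + Pi.single (.inl (2, k)) 1 :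
        Un n → ℕ) v = (Pi.single (.inl (0, i')) 1 + Pi.single (.inl (1, j')) 1 +
          Pi.single (.inl (2, k')) 1 : Un n → ℕ) v := by
    intro v
    have h4 := congrFun (congrArg Subtype.val h2) v
    exact congrArg Fin.val h4
  have e1 := h3 (.inl (0, i))
  have e2 := h3 (.inl (1, j))
  have e3 := h3 (.inl (2, k))
  simp only [Pi.add_apply, Pi.single_apply, Sum.inl.injEq, Prod.mk.injEq] at e1 e2 e3
  simp at e1 e2 e3
  by_cases hi : i = i'
  · by_cases hj : j = j'
    · by_cases hk : k = k'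
      · rw [hi, hj, hk]
      · exfalso; simp_all
    · exfalso; simp_all
  · exfalso; simp_all

/-! ### The transfer of the lower bound -/

/-- the lower bound for the special systems: trees with guesses which reject the systems with a
zero in `{0, 1}` and accept the systems without a complex zero -/
def Hard (K : Type) [Field K] (tst : K → Prop) (φ : K →+* ℂ) : Prop :=
  ∀ (n N g : ℕ) (e : Fin N → Coef (Un n) (dg n)) (T : Tree K),
    (∀ a : Coef (Un n) (dg n) → K, Solvable01 (dg n) a →
      ¬ ∃ w : Fin g → K, T.Acc tst ((List.ofFn fun i => a (e i)) ++ List.ofFn w)) →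
    (∀ a : Coef (Un n) (dg n) → K, ¬ Solvable (dg n) (fun c => φ (a c)) →
      ∃ w : Fin g → K, T.Acc tst ((List.ofFn fun i => a (e i)) ++ List.ofFn w)) →
    3 * n ^ 4 ≤ 31 * (T.depth + g) + 7 * n ^ 3

theorem hard_complex : Hard ℂ (fun x => x = 0) (RingHom.id ℂ) := by
  intro n N g e T hT₀ hT₁
  have h := lower_spec (g := g) e T (by
    intro a ha
    unfold Tree.NAcc
    simp only [accEq_iff]
    exact hT₀ a ha) (by
    intro a ha
    unfold Tree.NAcc
    simp only [accEq_iff]
    exact hT₁ a ha)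
  omega

theorem hard_real : Hard ℝ (fun x => 0 ≤ x) Complex.ofRealHom := by
  intro n N g e T hT₀ hT₁
  have h := R.lower_spec (g := g) e T hT₀ hT₁
  omega

section

variable {K : Type} [Field K] {tst : K → Prop} {φ : K →+* ℂ}

lemma lower_format (hard : Hard K tst φ) (n : ℕ) (hn : 5 ≤ n) {N : ℕ}
    (ord : Fin N ≃ Coef (Fin (4 * n)) (degF n)) (T : Tree K) (g : ℕ)
    (hT₀ : ∀ a : Coef (Fin (4 * n)) (degF n) → K, Solvable01 (degF n) a →
      ¬ ∃ w : Fin g → K, T.Acc tst (List.ofFn (a ∘ ord) ++ List.ofFn w))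
    (hT₁ : ∀ a : Coef (Fin (4 * n)) (degF n) → K, ¬ Solvable (degF n) (fun c => φ (a c)) →
      ∃ w : Fin g → K, T.Acc tst (List.ofFn (a ∘ ord) ++ List.ofFn w)) :
    n ^ 4 ≤ 20 * (T.depth + g) := by
  have hcomp : ∀ {A : Type} (a : Coef (Un n) (dg n) → A),
      (a ∘ (cE n).symm) ∘ coefEquiv (unE n) (eqE n) (dg n) (degF n)
          (fun i => by unfold degF; rw [Equiv.symm_apply_apply]) = a := by
    intro A a
    funext c
    exact congrArg a ((cE n).symm_apply_apply c)
  have h := hard n N g (fun i => (cE n).symm (ord i)) T (by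
    intro a ha
    refine hT₀ (a ∘ (cE n).symm) ?_
    rw [← solvable01_rename (unE n) (eqE n) (dg n) (degF n)
      (fun i => by unfold degF; rw [Equiv.symm_apply_apply]), hcomp]
    exact ha) (by
    intro a ha
    refine hT₁ (a ∘ (cE n).symm) ?_
    intro h0
    apply ha
    have h3 := (solvable_rename (unE n) (eqE n) (dg n) (degF n)
      (fun i => by unfold degF; rw [Equiv.symm_apply_apply])
      (fun c => φ ((a ∘ (cE n).symm) c))).mpr h0
    have h4 : (fun c => φ ((a ∘ (cE n).symm) c)) = (fun c => φ (a c)) ∘ (cE n).symm := rfl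
    rw [h4, hcomp] at h3
    exact h3)
  have h5 : 5 * n ^ 3 ≤ n ^ 4 := by
    rw [pow_succ n 3, mul_comm]; exact Nat.mul_le_mul_left _ hn
  omega

lemma pow_form {n N x : ℕ} (hN : N ≤ 240 * n ^ 3) (h : n ^ 4 ≤ 20 * x) :
    N ^ 4 ≤ (30000 * x) ^ 3 := by
  calc N ^ 4 ≤ (240 * n ^ 3) ^ 4 := Nat.pow_le_pow_left hN 4
    _ = 240 ^ 4 * (n ^ 4) ^ 3 := by ring
    _ ≤ 240 ^ 4 * (20 * x) ^ 3 := Nat.mul_le_mul_left _ (Nat.pow_le_pow_left h 3)
    _ = (240 ^ 4 * 20 ^ 3) * x ^ 3 := by ring
    _ ≤ 30000 ^ 3 * x ^ 3 := Nat.mul_le_mul_right _ (by norm_num)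
    _ = (30000 * x) ^ 3 := by ring

/-! ### Machines -/

/-- An encoding of the systems: a list which describes the format (the number `m` of unknowns, the
number `k` of equations and their degrees) in an arbitrary way, and an ordering of the
coefficients. -/
structure Encoding (K : Type) where
  /-- the description of the format -/
  hdr : ∀ (m k : ℕ), (Fin k → ℕ) → List K
  /-- the ordering of the coefficients -/
  ord : ∀ (m k : ℕ) (deg : Fin k → ℕ), Fin (size m deg) ≃ Coef (Fin m) deg

/-- the code of a system: the description of the format followed by the list of all coefficients -/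
noncomputable def Encoding.code {K : Type} (E : Encoding K) {m k : ℕ} {deg : Fin k → ℕ}
    (a : Coef (Fin m) deg → K) : List K := E.hdr m k deg ++ List.ofFn (a ∘ E.ord m k deg)

/-- Nondeterministic machines with time bound `t N` and `g N` guesses on systems of size `N`,
acceptance being the answer `b`, which reject the systems with a zero in `{0, 1}` and accept the
systems without a complex zero. -/
theorem machine_lower (hard : Hard K tst φ) (E : Encoding K) (M : Machine K) (b : Bool)
    (t g : ℕ → ℕ) (ht : Monotone t) (hg : Monotone g)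
    (hM₀ : ∀ (m k : ℕ) (deg : Fin k → ℕ) (a : Coef (Fin m) deg → K), Solvable01 deg a →
      ¬ ∃ y : Fin (g (size m deg)) → K,
        M.answer tst (t (size m deg)) (E.code a ++ List.ofFn y) = some b)
    (hM₁ : ∀ (m k : ℕ) (deg : Fin k → ℕ) (a : Coef (Fin m) deg → K),
      ¬ Solvable deg (fun c => φ (a c)) → ∃ y : Fin (g (size m deg)) → K,
        M.answer tst (t (size m deg)) (E.code a ++ List.ofFn y) = some b)
    (N : ℕ) (hN : 30000 ≤ N) : N ^ 4 ≤ (200000 * (t N + g N)) ^ 3 := by
  classical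
  have hex : ∃ n, N < 240 * (n + 1) ^ 3 := by
    refine ⟨N, ?_⟩
    calc N < N + 1 := Nat.lt_succ_self N
      _ = (N + 1) ^ 1 := (pow_one _).symm
      _ ≤ (N + 1) ^ 3 := Nat.pow_le_pow_right (by omega) (by norm_num)
      _ ≤ 240 * (N + 1) ^ 3 := Nat.le_mul_of_pos_left _ (by norm_num)
  obtain ⟨n, hn, hmin⟩ : ∃ n, N < 240 * (n + 1) ^ 3 ∧ ∀ l < n, ¬ N < 240 * (l + 1) ^ 3 :=
    ⟨Nat.find hex, Nat.find_spec hex, fun l hl => Nat.find_min hex hl⟩
  have h5 : 5 ≤ n := by
    by_contra hlt
    push Not at hlt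
    have h1 : (n + 1) ^ 3 ≤ 5 ^ 3 := Nat.pow_le_pow_left (by omega) 3
    omega
  have hlow : 240 * n ^ 3 ≤ N := by
    have := hmin (n - 1) (by omega)
    rw [show n - 1 + 1 = n from by omega] at this
    omega
  set S := size (4 * n) (degF n) with hS
  have hSN : S ≤ N := (size_le n (by omega)).trans hlow
  -- the tree
  obtain ⟨T, hT1, hT2⟩ := exists_tree tst M (E.hdr (4 * n) (4 * n + 4) (degF n))
    (S + g S) (t S) b
  have key : ∀ (a : Coef (Fin (4 * n)) (degF n) → K),
      (∃ w : Fin (g S) → K, T.Acc tst (List.ofFn (a ∘ E.ord (4 * n) (4 * n + 4) (degF n)) ++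
        List.ofFn w)) ↔ ∃ y : Fin (g S) → K,
          M.answer tst (t S) (E.code a ++ List.ofFn y) = some b := by
    intro a
    apply exists_congr
    intro w
    rw [hT2 _ (by rw [List.length_append, List.length_ofFn, List.length_ofFn])]
    unfold Encoding.code
    rw [List.append_assoc]
  have h := lower_format hard n h5 (E.ord (4 * n) (4 * n + 4) (degF n)) T (g S)
    (fun a ha => by rw [key]; exact hM₀ _ _ _ a ha) (fun a ha => by rw [key]; exact hM₁ _ _ _ a ha)
  have h6 : n ^ 4 ≤ 60 * (t N + g N) := by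
    have h7 := ht hSN
    have h8 := hg hSN
    omega
  have h9 : 125 * (n + 1) ^ 3 ≤ 216 * n ^ 3 := by
    calc 125 * (n + 1) ^ 3 = (5 * (n + 1)) ^ 3 := by ring
      _ ≤ (6 * n) ^ 3 := Nat.pow_le_pow_left (by omega) 3
      _ = 216 * n ^ 3 := by ring
  have h10 : N ≤ 415 * n ^ 3 := by omega
  calc N ^ 4 ≤ (415 * n ^ 3) ^ 4 := Nat.pow_le_pow_left h10 4
    _ = 415 ^ 4 * (n ^ 4) ^ 3 := by ring
    _ ≤ 415 ^ 4 * (60 * (t N + g N)) ^ 3 := Nat.mul_le_mul_left _ (Nat.pow_le_pow_left h6 3)
    _ = (415 ^ 4 * 60 ^ 3) * (t N + g N) ^ 3 := by ring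
    _ ≤ 200000 ^ 3 * (t N + g N) ^ 3 := Nat.mul_le_mul_right _ (by norm_num)
    _ = (200000 * (t N + g N)) ^ 3 := by ring

/-- Deterministic machines, which answer yes on the systems with a zero in `{0, 1}` and no on the
systems without a complex zero. -/
theorem machine_lower_det (hard : Hard K tst φ) (E : Encoding K) (M : Machine K)
    (t : ℕ → ℕ) (ht : Monotone t)
    (hM₀ : ∀ (m k : ℕ) (deg : Fin k → ℕ) (a : Coef (Fin m) deg → K), Solvable01 deg a →
      M.answer tst (t (size m deg)) (E.code a) = some true)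
    (hM₁ : ∀ (m k : ℕ) (deg : Fin k → ℕ) (a : Coef (Fin m) deg → K),
      ¬ Solvable deg (fun c => φ (a c)) → M.answer tst (t (size m deg)) (E.code a) = some false)
    (N : ℕ) (hN : 30000 ≤ N) : N ^ 4 ≤ (200000 * t N) ^ 3 := by
  refine machine_lower hard E M false t (fun _ => 0) ht monotone_const ?_ ?_ N hN
  · intro m k deg a ha
    rintro ⟨y, hy⟩
    rw [List.ofFn_zero, List.append_nil, hM₀ m k deg a ha] at hy
    exact absurd (Option.some.inj hy) (by decide)
  · intro m k deg a ha
    refine ⟨Fin.elim0, ?_⟩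
    rw [List.ofFn_zero, List.append_nil]
    exact hM₁ m k deg a ha

end

end Pool.Agent.H546R2.BS
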